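import Mathlib
import Pool.Graph.R_pool_sql_team_seeded_63374d34.N491.CD.Seq

/-!
# The category of the mixed representations in a class closed under subquotients and finite sums
-/

set_option autoImplicit false
set_option linter.unusedSectionVars false
set_option maxHeartbeats 1000000

open NumberField CategoryTheory Polynomial Limits Pool.Agent.N491.CD

namespace Pool.Agent.H68.CD

variable {F : Type} [Field F] [NumberField F] {l : ℕ} [hl : Fact l.Prime]

/-- The class `𝒜` contains the zero representation and is closed under subobjects, quotients and finite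
direct sums. -/
class IsAdm (𝒜 : ObjectProperty (Reps F l)) : Prop extends
    𝒜.ContainsZero, 𝒜.IsClosedUnderSubobjects, 𝒜.IsClosedUnderQuotients,
    𝒜.IsClosedUnderFiniteProducts

instance (𝒜 : ObjectProperty (Reps F l)) [IsAdmissible 𝒜] : IsAdm 𝒜 where

variable (𝒜 : ObjectProperty (Reps F l))

/-- The category of the mixed `l`-adic representations which belong to the class `𝒜`. -/
abbrev MCat : Type 1 := (Mixed 𝒜).FullSubcategory

variable [IsAdm 𝒜]

instance : (Mixed 𝒜).IsClosedUnderSubobjects where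
  prop_of_mono {X Y} f _ hY := by
    have h1 : Function.Injective f.hom := (Rep.mono_iff_injective f).1 inferInstance
    have h2 : JointInj f f := fun z hz _ => h1 (by rw [hz, map_zero])
    exact ⟨hY.1.of_jointInj h2 hY.1, hY.2.1.of_jointInj h2 hY.2.1, 𝒜.prop_of_mono f hY.2.2⟩

instance : (Mixed 𝒜).IsClosedUnderQuotients where
  prop_of_epi {X Y} f _ hX := by
    have h1 : Function.Surjective f.hom := (Rep.epi_iff_surjective f).1 inferInstance
    exact ⟨hX.1.of_surj h1, hX.2.1.of_surj h1, 𝒜.prop_of_epi f hX.2.2⟩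

theorem isMixed_subsingleton {Z : Reps F l} (hs : Subsingleton Z.V) : IsLadic Z.ρ ∧ IsMixed Z.ρ := by
  refine ⟨⟨inferInstance, fun v f => ?_⟩, ?_⟩
  · have h : ∀ g, Z.ρ g v = 0 := fun g => Subsingleton.elim _ _
    simp only [h, map_zero]
    exact continuous_const
  · refine ⟨fun _ => ⊥, fun m g x _ => ?_, fun m n _ => le_rfl, ⟨0, rfl⟩,
      ⟨0, Subsingleton.elim _ _⟩, fun m => ⟨1, one_ne_zero, fun P _ _ _ => ⟨fun τ _ x _ => ?_,
      fun Φ _ => ⟨1, one_ne_zero, fun z hz => ?_, fun x _ => ?_⟩⟩⟩⟩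
    · rw [Subsingleton.elim (Z.ρ g x) 0]
      exact Submodule.zero_mem _
    · rw [Subsingleton.elim (Z.ρ τ x - x) 0]
      exact Submodule.zero_mem _
    · rw [map_one] at hz
      exact absurd hz one_ne_zero
    · rw [Subsingleton.elim (aeval (Z.ρ Φ) _ x) 0]
      exact Submodule.zero_mem _

instance : (Mixed 𝒜).ContainsZero where
  exists_zero := by
    obtain ⟨Z, hZ, hA⟩ := 𝒜.exists_prop_of_containsZero
    have hs : Subsingleton Z.V := (Rep.isZero_iff _ _ Z).1 hZ
    obtain ⟨h1, h2⟩ := isMixed_subsingleton hs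
    exact ⟨Z, hZ, h1, h2, hA⟩

instance : (Mixed 𝒜).IsClosedUnderBinaryProducts where
  limitsOfShape_le := by
    rintro X ⟨p⟩
    have h1 : JointInj (p.π.app ⟨WalkingPair.left⟩) (p.π.app ⟨WalkingPair.right⟩) := by
      refine jointInj_of _ _ fun K a ha hb => p.isLimit.hom_ext fun j => ?_
      rcases j with ⟨_ | _⟩
      · exact ha.trans Limits.zero_comp.symm
      · exact hb.trans Limits.zero_comp.symm
    have hl := p.prop_diag_obj ⟨WalkingPair.left⟩
    have hr := p.prop_diag_obj ⟨WalkingPair.right⟩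
    refine ⟨IsLadic.of_jointInj h1 hl.1 hr.1, IsMixed.of_jointInj h1 hl.2.1 hr.2.1, ?_⟩
    refine 𝒜.prop_of_isLimit p.isLimit fun j => (p.prop_diag_obj j).2.2

instance : (Mixed 𝒜).IsClosedUnderFiniteProducts := .mk'

noncomputable instance : Abelian (MCat 𝒜) := inferInstance

section exact

variable {𝒜}
variable {A B C : MCat 𝒜} {f : A ⟶ B} {g : B ⟶ C} {w : f ≫ g = 0}

theorem comp_zero_apply (w : f ≫ g = 0) (x : A.obj) : g.hom.hom (f.hom.hom x) = 0 := by
  have h1 : (f ≫ g).hom.hom x = (0 : A ⟶ C).hom.hom x := by rw [w]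
  exact h1

theorem shortExact_of (hf : Function.Injective f.hom.hom) (hg : Function.Surjective g.hom.hom)
    (h : ∀ b : B.obj, g.hom.hom b = 0 → ∃ a : A.obj, f.hom.hom a = b) :
    (ShortComplex.mk f g w).ShortExact := by
  have hmono : Mono f := by
    have h1 : Mono ((Mixed 𝒜).ι.map f) := (Rep.mono_iff_injective _).2 hf
    exact (Mixed 𝒜).ι.mono_of_mono_map h1
  have hepi : Epi g := by
    have h1 : Epi ((Mixed 𝒜).ι.map g) := (Rep.epi_iff_surjective _).2 hg
    exact (Mixed 𝒜).ι.epi_of_epi_map h1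
  have hlift : ∀ (K : MCat 𝒜) (k : K ⟶ B), k ≫ g = 0 → ∃ t : K ⟶ A, t ≫ f = k := by
    intro K k hk
    let e := LinearEquiv.ofInjective f.hom.hom.toLinearMap hf
    have hr : ∀ x, k.hom.hom.toLinearMap x ∈ LinearMap.range f.hom.hom.toLinearMap := fun x =>
      h _ (comp_zero_apply hk x)
    let t0 : K.obj →ₗ[ℚ_[l]] A.obj :=
      e.symm.toLinearMap.comp (k.hom.hom.toLinearMap.codRestrict _ hr)
    have ht0 : ∀ x, f.hom.hom (t0 x) = k.hom.hom x := by
      intro x
      have h1 : (e (e.symm ⟨_, hr x⟩) : B.obj) = k.hom.hom x := by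
        rw [LinearEquiv.apply_symm_apply]
        rfl
      exact h1
    refine ⟨ObjectProperty.homMk (Rep.ofHom ⟨t0, fun g => ?_⟩), ?_⟩
    · refine LinearMap.ext fun x => hf ?_
      change f.hom.hom (t0 (K.obj.ρ g x)) = f.hom.hom (A.obj.ρ g (t0 x))
      rw [ht0, Rep.hom_comm_apply, Rep.hom_comm_apply, ht0]
    · apply ObjectProperty.hom_ext
      apply Rep.hom_ext
      ext x
      exact ht0 x
  choose t ht using hlift
  exact
    { exact := ShortComplex.exact_of_f_is_kernel _ (KernelFork.IsLimit.ofι f w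
        (fun k hk => t _ k hk) (fun k hk => ht _ k hk) (fun k hk m hm => by
          rw [← cancel_mono f, hm]
          exact (ht _ k hk).symm)) }

theorem ShortExact_inj (h : (ShortComplex.mk f g w).ShortExact) : Function.Injective f.hom.hom := by
  have h1 : (Mixed 𝒜).ι.PreservesMonomorphisms :=
    (Mixed 𝒜).preservesMonomorphisms_ι_of_isNormalEpiCategory
  have h2 : Mono f := h.mono_f
  have h3 : Mono ((Mixed 𝒜).ι.map f) := inferInstance
  exact (Rep.mono_iff_injective _).1 h3

theorem ShortExact_surj (h : (ShortComplex.mk f g w).ShortExact) :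
    Function.Surjective g.hom.hom := by
  have h1 : (Mixed 𝒜).ι.PreservesEpimorphisms :=
    (Mixed 𝒜).preservesEpimorphisms_ι_of_isNormalMonoCategory
  have h2 : Epi g := h.epi_g
  have h3 : Epi ((Mixed 𝒜).ι.map g) := inferInstance
  exact (Rep.epi_iff_surjective _).1 h3

theorem ShortExact_exact (h : (ShortComplex.mk f g w).ShortExact) (b : B.obj)
    (hb : g.hom.hom b = 0) : ∃ a : A.obj, f.hom.hom a = b := by
  have h2 : Mono f := h.mono_f
  let W : Submodule ℚ_[l] B.obj := LinearMap.ker g.hom.hom.toLinearMap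
  have hW : ∀ s, W ≤ W.comap (B.obj.ρ s) := by
    intro s x hx
    have h1 : g.hom.hom x = 0 := hx
    change g.hom.hom (B.obj.ρ s x) = 0
    rw [Rep.hom_comm_apply, h1, map_zero]
  have hm : Mono (Rep.subtype B.obj W hW) := (Rep.mono_iff_injective _).2 Subtype.val_injective
  let K : MCat 𝒜 := ⟨_, (Mixed 𝒜).prop_of_mono (Rep.subtype B.obj W hW) B.property⟩
  let k : K ⟶ B := ObjectProperty.homMk (Rep.subtype B.obj W hW)
  have hk : k ≫ g = 0 := by
    apply ObjectProperty.hom_ext
    apply Rep.hom_ext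
    ext x
    exact x.2
  have hlim : IsLimit (KernelFork.ofι f w) := h.exact.fIsKernel
  obtain ⟨t, ht⟩ := KernelFork.IsLimit.lift' hlim k hk
  refine ⟨t.hom.hom (⟨b, hb⟩ : W), ?_⟩
  have h3 : (t ≫ f).hom.hom (⟨b, hb⟩ : W) = k.hom.hom (⟨b, hb⟩ : W) := by
    have : t ≫ f = k := ht
    rw [this]
  exact h3

end exact

theorem prop_of_jointInj {Z X Y : Reps F l} {p : Z ⟶ X} {q : Z ⟶ Y} (h : JointInj p q)
    (hX : Mixed 𝒜 X) (hY : Mixed 𝒜 Y) : Mixed 𝒜 Z := by
  have h1 : Mono (prod.lift p q) := by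
    refine (Rep.mono_iff_injective _).2 ?_
    rw [injective_iff_map_eq_zero]
    intro z hz
    refine h z ?_ ?_
    · have h2 : p.hom z = (prod.lift p q ≫ prod.fst).hom z := by rw [prod.lift_fst]
      have h3 : (prod.lift p q ≫ prod.fst).hom z =
        (prod.fst : X ⨯ Y ⟶ X).hom ((prod.lift p q).hom z) := rfl
      rw [h2, h3, hz, map_zero]
    · have h2 : q.hom z = (prod.lift p q ≫ prod.snd).hom z := by rw [prod.lift_snd]
      have h3 : (prod.lift p q ≫ prod.snd).hom z =
        (prod.snd : X ⨯ Y ⟶ Y).hom ((prod.lift p q).hom z) := rfl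
      rw [h2, h3, hz, map_zero]
  exact (Mixed 𝒜).prop_of_mono (prod.lift p q) ((Mixed 𝒜).prop_prod X Y hX hY)

end Pool.Agent.H68.CD
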