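import Mathlib
import Pool.Graph.R_pool_sql_team_seeded_63374d34.N491.CD.Prm

/-!
# A tree of primes

The nodes of the binary tree are the natural numbers; the children of `c` are `2 c + 1` and `2 c + 2`.
With every node `i + 1` there are associated prime numbers `P_i`, `R_i`, and `Q_i` such that the product of
the numbers `(P R) ^ (l ^ j)` along a path of length `n` is a power of exponent `l ^ n` in the `l`-adic
integers, and such that the product of the numbers `Q_j ^ (l ^ j)` for `j ≤ i` has a large order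
modulo `P_i`.
-/

set_option autoImplicit false
set_option maxHeartbeats 1000000

open Pool.Agent.N491.CD

namespace Pool.Agent.H68.CD

/-- the level of a node -/
def lev (c : ℕ) : ℕ := Nat.log 2 (c + 1)

theorem lev_succ (i : ℕ) : lev (i + 1) = lev (i / 2) + 1 := by
  unfold lev
  have h : i + 1 + 1 = i + 2 := rfl
  rw [h, Nat.log_of_one_lt_of_le one_lt_two (by omega : 2 ≤ i + 2)]
  congr 2
  omega

theorem lev_zero : lev 0 = 0 := by
  simp [lev]

/-- a step of the construction -/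
structure St (l : ℕ) [Fact l.Prime] where
  P : ℕ
  Q : ℕ
  R : ℕ
  m : ℕ
  D : ℕ
  A : ℕ → ℕ
  N : ℕ
  w : ℤ_[l]
  v : ℕ → ℤ_[l]

variable {l : ℕ} [hl : Fact l.Prime]

/-- the conditions on the step number `i` -/
structure Good (i : ℕ) (s : St l) : Prop where
  hD : ((s.D : ℕ) : ℤ_[l]) = s.w ^ l ^ i
  hw : ‖s.w - 1‖ ≤ (l : ℝ) ^ (-(2 : ℕ) : ℤ)
  hA : ∀ c ≤ i, ((s.A c : ℕ) : ℤ_[l]) = s.v c ^ l ^ lev c
  hv : ∀ c ≤ i, ‖s.v c‖ = 1
  hD0 : 0 < s.D
  hD1 : s.D ≡ 1 [MOD l ^ 2]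
  hN : Nat.Coprime s.N l
  hN0 : s.N ≠ 0
  hA0 : ∀ c ≤ i, 0 < s.A c

/-- the relation between the steps `i` and `i + 1` -/
structure Next (i : ℕ) (s s' : St l) : Prop where
  hP : s'.P.Prime
  hPl : s'.P ≠ l
  hQ : s'.Q.Prime
  hR : s'.R.Prime
  hD : s'.D = s.D * s'.Q ^ l ^ i
  hA : s'.A = Function.update s.A (i + 1) (s.A (i / 2) * (s'.P * s'.R) ^ l ^ lev (i / 2))
  hN : s'.N = s.N * s'.P
  hAP : ∀ c ≤ i, s.A c < s'.P
  hPR : s'.P < s'.R
  hQN : s'.Q ≡ 1 [MOD s.N]
  hm : 2 * i + 1 ≤ s'.m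
  ho : orderOf (s'.D : ZMod s'.P) = l ^ s'.m

theorem exists_good_zero : ∃ s : St l, Good 0 s ∧ s.D = 1 ∧ s.A 0 = 1 := by
  refine ⟨⟨0, 0, 0, 0, 1, fun _ => 1, 1, 1, fun _ => 1⟩, ⟨?_, ?_, ?_, ?_, ?_, ?_, ?_, ?_, ?_⟩, rfl, rfl⟩
  · simp
  · simp only [sub_self, norm_zero]
    positivity
  · intro c _
    simp
  · intro c _
    exact norm_one
  · exact one_pos
  · rfl
  · exact Nat.coprime_one_left l
  · exact one_ne_zero
  · intro c _
    exact one_pos

theorem exists_next {i : ℕ} {s : St l} (hs : Good i s) : ∃ s' : St l, Good (i + 1) s' ∧ Next i s s' := by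
  have hw1 : ‖s.w‖ = 1 := norm_eq_one (n := 2) (by norm_num) hs.hw
  obtain ⟨Q, hQ0, hQ, hQN, hQw⟩ := exists_prime_mod hw1 hs.hN hs.hN0 0
  obtain ⟨w', hw', hw'1⟩ := exists_root hQw
  have hl1 : (1 : ℝ) < l := by exact_mod_cast hl.out.one_lt
  have hQ1 : Q ≡ 1 [MOD l ^ 2] := by
    have h1 : ‖((Q : ℕ) : ℤ_[l]) - 1‖ ≤ (l : ℝ) ^ (-(2 : ℕ) : ℤ) := by
      have e : s.w * ((Q : ℤ_[l]) - 1) = (s.w * Q - 1) - (s.w - 1) := by ring
      have h2 : ‖s.w * ((Q : ℤ_[l]) - 1)‖ = ‖(Q : ℤ_[l]) - 1‖ := by rw [norm_mul, hw1, one_mul]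
      rw [← h2, e, sub_eq_add_neg]
      refine (PadicInt.nonarchimedean _ _).trans (max_le (hQw.trans ?_) ?_)
      · exact zpow_le_zpow_right₀ hl1.le (by norm_num)
      · rw [norm_neg]
        exact hs.hw
    rw [norm_le_iff, map_sub, map_one, map_natCast, sub_eq_zero] at h1
    rw [← ZMod.natCast_eq_natCast_iff, Nat.cast_one]
    exact h1
  have hQ2 : 2 ≤ Q := hQ.two_le
  have hD'1 : s.D * Q ^ l ^ i ≡ 1 [MOD l ^ 2] := by
    have := hs.hD1.mul (hQ1.pow (l ^ i))
    rwa [one_pow, one_mul] at this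
  have hD'2 : 2 ≤ s.D * Q ^ l ^ i := by
    have h1 : 1 < Q ^ l ^ i := Nat.one_lt_pow (pow_ne_zero _ hl.out.ne_zero) hQ.one_lt
    have h2 := hs.hD0
    nlinarith
  obtain ⟨M, hM⟩ : ∃ M, M = ∑ c ∈ Finset.range (i + 1), s.A c := ⟨_, rfl⟩
  have hMc : ∀ c ≤ i, s.A c ≤ M := by
    intro c hc
    rw [hM]
    exact Finset.single_le_sum (f := s.A) (fun _ _ => Nat.zero_le _)
      (Finset.mem_range.2 (Nat.lt_succ_of_le hc))
  obtain ⟨P, hP, hPl, hPo⟩ := exists_prime l hD'2 hD'1 (M + 2 * i)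
  have hdvd := order_dvd hP hPo
  have hMP : M < P := by
    have h1 : l ^ (M + 2 * i + 1) ≤ P - 1 := Nat.le_of_dvd (by have := hP.two_le; omega) hdvd
    have h2 : M + 2 * i + 1 < l ^ (M + 2 * i + 1) := Nat.lt_pow_self hl.out.one_lt
    omega
  have hAP : ∀ c ≤ i, s.A c < P := fun c hc => (hMc c hc).trans_lt hMP
  have hPn : ‖(P : ℤ_[l])‖ = 1 := norm_natCast_prime' hP hPl
  have hi2 : i / 2 ≤ i := Nat.div_le_self i 2
  have hvP : ‖s.v (i / 2) * (P : ℤ_[l])‖ = 1 := by rw [norm_mul, hs.hv _ hi2, hPn, one_mul]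
  obtain ⟨R, hRP, hR, -, hRv⟩ := exists_prime_mod hvP (Nat.coprime_one_left l) one_ne_zero P
  obtain ⟨v', hv', hv'1⟩ := exists_root hRv
  refine ⟨⟨P, Q, R, M + 2 * i + 1, s.D * Q ^ l ^ i,
      Function.update s.A (i + 1) (s.A (i / 2) * (P * R) ^ l ^ lev (i / 2)), s.N * P, w',
      Function.update s.v (i + 1) v'⟩,
    ⟨?_, hw'1, ?_, ?_, by positivity, hD'1, ?_, ?_, ?_⟩,
    ⟨hP, hPl, hQ, hR, rfl, rfl, rfl, hAP, hRP, hQN, by change 2 * i + 1 ≤ M + 2 * i + 1; omega,
      hPo⟩⟩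
  · change ((s.D * Q ^ l ^ i : ℕ) : ℤ_[l]) = w' ^ l ^ (i + 1)
    rw [pow_succ', pow_mul, hw', mul_pow, ← hs.hD]
    push_cast
    ring
  · intro c hc
    change ((Function.update s.A (i + 1) (s.A (i / 2) * (P * R) ^ l ^ lev (i / 2)) c : ℕ) : ℤ_[l]) =
      Function.update s.v (i + 1) v' c ^ l ^ lev c
    rcases Nat.lt_or_ge c (i + 1) with h | h
    · rw [Function.update_of_ne h.ne, Function.update_of_ne h.ne]
      exact hs.hA c (Nat.lt_succ_iff.1 h)
    · obtain rfl : c = i + 1 := le_antisymm hc h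
      rw [Function.update_self, Function.update_self, lev_succ, pow_succ', pow_mul, hv', mul_assoc,
        mul_pow (s.v (i / 2)), ← hs.hA _ hi2]
      push_cast
      ring
  · intro c hc
    change ‖Function.update s.v (i + 1) v' c‖ = 1
    rcases Nat.lt_or_ge c (i + 1) with h | h
    · rw [Function.update_of_ne h.ne]
      exact hs.hv c (Nat.lt_succ_iff.1 h)
    · obtain rfl : c = i + 1 := le_antisymm hc h
      rw [Function.update_self]
      exact norm_eq_one (n := 2) (by norm_num) hv'1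
  · exact hs.hN.mul_left ((Nat.coprime_primes hP hl.out).2 hPl)
  · exact mul_ne_zero hs.hN0 hP.ne_zero
  · intro c hc
    change 0 < Function.update s.A (i + 1) (s.A (i / 2) * (P * R) ^ l ^ lev (i / 2)) c
    rcases Nat.lt_or_ge c (i + 1) with h | h
    · rw [Function.update_of_ne h.ne]
      exact hs.hA0 c (Nat.lt_succ_iff.1 h)
    · obtain rfl : c = i + 1 := le_antisymm hc h
      rw [Function.update_self]
      have := hs.hA0 _ hi2
      have := hP.pos
      have := hR.pos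
      positivity
where
  norm_natCast_prime' {P : ℕ} (hP : P.Prime) (hPl : P ≠ l) : ‖(P : ℤ_[l])‖ = 1 := by
    rw [PadicInt.norm_natCast_eq_one_iff]
    exact (Nat.coprime_primes hl.out hP).2 hPl.symm

variable (l) in
/-- the sequence of steps -/
noncomputable def seq : (i : ℕ) → {s : St l // Good i s}
  | 0 => ⟨(exists_good_zero (l := l)).choose, (exists_good_zero (l := l)).choose_spec.1⟩
  | i + 1 => ⟨(exists_next (seq i).2).choose, (exists_next (seq i).2).choose_spec.1⟩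

theorem seq_next (i : ℕ) : Next i (seq l i).1 (seq l (i + 1)).1 :=
  (exists_next (seq l i).2).choose_spec.2

variable (l) in
noncomputable def PP (i : ℕ) : ℕ := (seq l (i + 1)).1.P
variable (l) in
noncomputable def QQ' (i : ℕ) : ℕ := (seq l (i + 1)).1.Q
variable (l) in
noncomputable def RR (i : ℕ) : ℕ := (seq l (i + 1)).1.R
variable (l) in
noncomputable def mmm (i : ℕ) : ℕ := (seq l (i + 1)).1.m

theorem seq_D (i : ℕ) : (seq l i).1.D = ∏ j ∈ Finset.range i, QQ' l j ^ l ^ j := by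
  induction i with
  | zero => exact (exists_good_zero (l := l)).choose_spec.2.1
  | succ i ih =>
    rw [Finset.prod_range_succ, ← ih]
    exact (seq_next i).hD

theorem seq_A_stable {c j : ℕ} (h : c ≤ j) : (seq l j).1.A c = (seq l c).1.A c := by
  induction j, h using Nat.le_induction with
  | base => rfl
  | succ j hj ih =>
    rw [← ih, (seq_next j).hA, Function.update_of_ne (by omega)]

theorem seq_A_succ (i : ℕ) : (seq l (i + 1)).1.A (i + 1) =
    (seq l (i / 2)).1.A (i / 2) * (PP l i * RR l i) ^ l ^ lev (i / 2) := by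
  rw [(seq_next i).hA, Function.update_self, seq_A_stable (Nat.div_le_self i 2)]
  rfl

theorem PP_prime (i : ℕ) : (PP l i).Prime := (seq_next i).hP

theorem PP_ne (i : ℕ) : PP l i ≠ l := (seq_next i).hPl

theorem QQ_prime (i : ℕ) : (QQ' l i).Prime := (seq_next i).hQ

theorem RR_prime (i : ℕ) : (RR l i).Prime := (seq_next i).hR

theorem PP_dvd_N {i j : ℕ} (h : i < j) : PP l i ∣ (seq l j).1.N := by
  induction j with
  | zero => omega
  | succ j ih =>
    rw [(seq_next j).hN]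
    rcases Nat.lt_succ_iff_lt_or_eq.1 h with h1 | rfl
    · exact (ih h1).mul_right _
    · exact dvd_mul_left _ _

theorem QQ_modEq {i j : ℕ} (h : i < j) : QQ' l j ≡ 1 [MOD PP l i] :=
  (seq_next j).hQN.of_dvd (PP_dvd_N h)

theorem PP_order (i : ℕ) :
    orderOf ((∏ j ∈ Finset.range (i + 1), QQ' l j ^ l ^ j : ℕ) : ZMod (PP l i)) = l ^ mmm l i := by
  rw [← seq_D]
  exact (seq_next i).ho

theorem mmm_ge (i : ℕ) : 2 * i + 1 ≤ mmm l i := (seq_next i).hm

theorem not_dvd_D (i : ℕ) : ¬ PP l i ∣ ∏ j ∈ Finset.range (i + 1), QQ' l j ^ l ^ j := by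
  intro h
  have : Fact (PP l i).Prime := ⟨PP_prime i⟩
  have h1 := PP_order (l := l) i
  rw [(ZMod.natCast_eq_zero_iff _ _).2 h, orderOf_zero] at h1
  exact pow_ne_zero _ hl.out.ne_zero h1.symm

theorem not_dvd_QQ (i j : ℕ) : ¬ PP l i ∣ QQ' l j := by
  rcases lt_or_ge i j with h | h
  · intro h1
    have h2 := (Nat.modEq_zero_iff_dvd.2 h1).symm.trans (QQ_modEq h)
    exact (PP_prime i).one_lt.ne' (Nat.dvd_one.1 (Nat.modEq_zero_iff_dvd.1 h2.symm))
  · intro h1
    refine not_dvd_D i (h1.trans ?_)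
    refine (dvd_pow_self _ (pow_ne_zero j hl.out.ne_zero)).trans
      (Finset.dvd_prod_of_mem _ (Finset.mem_range.2 (by omega)))

theorem mul_le_A (i : ℕ) : PP l i * RR l i ≤ (seq l (i + 1)).1.A (i + 1) := by
  refine Nat.le_of_dvd ((seq l (i + 1)).2.hA0 _ le_rfl) ?_
  rw [seq_A_succ]
  exact (dvd_pow_self _ (pow_ne_zero _ hl.out.ne_zero)).mul_left _

theorem mul_lt_P {i j : ℕ} (h : i < j) : PP l i * RR l i < PP l j := by
  refine (mul_le_A i).trans_lt ?_
  rw [← seq_A_stable (Nat.succ_le_of_lt h)]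
  exact (seq_next j).hAP (i + 1) h

theorem not_dvd_PR {i j : ℕ} (h : i ≠ j) : ¬ PP l i ∣ PP l j * RR l j := by
  rcases lt_or_gt_of_ne h with h | h
  · have h1 : PP l i * RR l i < PP l j := mul_lt_P h
    have h2 : PP l i < PP l j := by
      have := (RR_prime (l := l) i).pos
      nlinarith
    have h3 : PP l j < RR l j := (seq_next j).hPR
    rw [(PP_prime i).dvd_mul, Nat.prime_dvd_prime_iff_eq (PP_prime i) (PP_prime j),
      Nat.prime_dvd_prime_iff_eq (PP_prime i) (RR_prime j)]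
    omega
  · intro h1
    have h2 : PP l j * RR l j < PP l i := mul_lt_P h
    have h3 := Nat.le_of_dvd (Nat.mul_pos (PP_prime j).pos (RR_prime j).pos) h1
    omega

theorem not_dvd_RR (i : ℕ) : ¬ PP l i ∣ RR l i := by
  rw [Nat.prime_dvd_prime_iff_eq (PP_prime i) (RR_prime i)]
  exact (seq_next i).hPR.ne

theorem exists_pow_Q (i : ℕ) : ∃ w : ℤ_[l],
    ((∏ j ∈ Finset.range i, QQ' l j ^ l ^ j : ℕ) : ℤ_[l]) = w ^ l ^ i :=
  ⟨_, by rw [← seq_D]; exact (seq l i).2.hD⟩

/-! ### Paths -/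

/-- the node number `n` of the path `x` -/
def nd (x : ℕ → Bool) : ℕ → ℕ
  | 0 => 0
  | n + 1 => 2 * nd x n + (x n).toNat + 1

/-- the index of the primes at the node number `n + 1` -/
def idx (x : ℕ → Bool) (n : ℕ) : ℕ := 2 * nd x n + (x n).toNat

theorem nd_succ (x : ℕ → Bool) (n : ℕ) : nd x (n + 1) = idx x n + 1 := rfl

theorem idx_div (x : ℕ → Bool) (n : ℕ) : idx x n / 2 = nd x n := by
  unfold idx
  have : (x n).toNat < 2 := Bool.toNat_lt (x n)
  omega

theorem lev_nd (x : ℕ → Bool) (n : ℕ) : lev (nd x n) = n := by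
  induction n with
  | zero => exact lev_zero
  | succ n ih => rw [nd_succ, lev_succ, idx_div, ih]

theorem le_nd (x : ℕ → Bool) (n : ℕ) : n ≤ nd x n := by
  induction n with
  | zero => exact le_rfl
  | succ n ih =>
    rw [nd_succ, idx]
    omega

theorem le_idx (x : ℕ → Bool) (n : ℕ) : n ≤ idx x n := by
  have := le_nd x n
  unfold idx
  omega

theorem nd_inj {x y : ℕ → Bool} {n m : ℕ} (h : nd x n = nd y m) : n = m ∧ ∀ k < n, x k = y k := by
  have hnm : n = m := by rw [← lev_nd x n, ← lev_nd y m, h]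
  subst hnm
  refine ⟨rfl, ?_⟩
  induction n with
  | zero => intro k hk; omega
  | succ n ih =>
    have h1 : idx x n = idx y n := by
      rw [nd_succ, nd_succ] at h
      omega
    have h2 : nd x n = nd y n := by rw [← idx_div x n, ← idx_div y n, h1]
    have h3 : (x n).toNat = (y n).toNat := by
      unfold idx at h1
      omega
    intro k hk
    rcases Nat.lt_succ_iff_lt_or_eq.1 hk with h4 | rfl
    · exact ih h2 k h4
    · revert h3
      cases x k <;> cases y k <;> simp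

theorem idx_ne {x y : ℕ → Bool} {k n : ℕ} (hk : x k ≠ y k) (hn : k ≤ n) (m : ℕ) :
    idx x n ≠ idx y m := by
  intro h
  have h1 : nd x (n + 1) = nd y (m + 1) := by rw [nd_succ, nd_succ, h]
  exact hk ((nd_inj h1).2 k (by omega))

theorem idx_injective (x : ℕ → Bool) : Function.Injective (idx x) := by
  intro n m h
  have h1 : nd x (n + 1) = nd x (m + 1) := by rw [nd_succ, nd_succ, h]
  have := (nd_inj h1).1
  omega

variable (l) in
/-- the number `P R` at the node number `n + 1` of the path `x` -/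
noncomputable def BB (x : ℕ → Bool) (n : ℕ) : ℕ := PP l (idx x n) * RR l (idx x n)

theorem BB_ne_zero (x : ℕ → Bool) (n : ℕ) : BB l x n ≠ 0 :=
  mul_ne_zero (PP_prime _).ne_zero (RR_prime _).ne_zero

theorem seq_A_path (x : ℕ → Bool) (n : ℕ) :
    (seq l (nd x n)).1.A (nd x n) = ∏ j ∈ Finset.range n, BB l x j ^ l ^ j := by
  induction n with
  | zero => exact (exists_good_zero (l := l)).choose_spec.2.2
  | succ n ih =>
    rw [Finset.prod_range_succ, ← ih, nd_succ, seq_A_succ, idx_div, lev_nd]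
    rfl

theorem exists_pow_BB (x : ℕ → Bool) (n : ℕ) : ∃ w : ℤ_[l],
    ((∏ j ∈ Finset.range n, BB l x j ^ l ^ j : ℕ) : ℤ_[l]) = w ^ l ^ n := by
  refine ⟨(seq l (nd x n)).1.v (nd x n), ?_⟩
  rw [← seq_A_path, (seq l (nd x n)).2.hA _ le_rfl, lev_nd]

theorem not_dvd_BB (x : ℕ → Bool) {n m : ℕ} (h : n ≠ m) : ¬ PP l (idx x n) ∣ BB l x m :=
  not_dvd_PR fun h1 => h (idx_injective x h1)

theorem not_dvd_BB' {x y : ℕ → Bool} {k n : ℕ} (hk : x k ≠ y k) (hn : k ≤ n) (m : ℕ) :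
    ¬ PP l (idx x n) ∣ BB l y m :=
  not_dvd_PR (idx_ne hk hn m)

end Pool.Agent.H68.CD
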