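import Mathlib
import Pool.Graph.R_pool_sql_team_seeded_63374d34.N491.CD.Spl
import Pool.Agent.H68.CD.Tree

/-!
# The non-existence of a cochain for linear combinations of Kummer cocycles
-/

set_option autoImplicit false
set_option linter.unusedSectionVars false
set_option maxHeartbeats 1000000

open NumberField IntermediateField Pool.Agent.N491.CD

namespace Pool.Agent.H68.CD

variable {F : Type} [Field F] [NumberField F] {l : ℕ} [hl : Fact l.Prime]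

variable (l) in
/-- the Kummer cocycle of the path `x` -/
noncomputable def al (x : ℕ → Bool) (σ : AbsGal F) : ℤ_[l] := sm l (BB l x) σ

variable (l) in
/-- the second Kummer cocycle -/
noncomputable def be (σ : AbsGal F) : ℤ_[l] := sm l (QQ' l) σ

theorem be_mul (σ τ : AbsGal F) : be l (σ * τ) = be l σ + chiZ l σ * be l τ :=
  sm_mul (fun i => (QQ_prime (l := l) i).ne_zero) σ τ

theorem al_mul (x : ℕ → Bool) (σ τ : AbsGal F) :
    al l x (σ * τ) = al l x σ + chiZ l σ * al l x τ :=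
  sm_mul (BB_ne_zero x) σ τ

theorem continuous_be : Continuous (be l : AbsGal F → ℤ_[l]) :=
  continuous_sm fun i => (QQ_prime (l := l) i).ne_zero

theorem continuous_al (x : ℕ → Bool) : Continuous (al l x : AbsGal F → ℤ_[l]) :=
  continuous_sm (BB_ne_zero x)

theorem be_one : be l (1 : AbsGal F) = 0 := by
  have h := be_mul (l := l) (1 : AbsGal F) 1
  rw [chiZ_one, mul_one, one_mul] at h
  simpa using h

theorem al_coboundary (x : ℕ → Bool) (ι : AlgebraicClosure F →+* PadicAlgCl l) :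
    ∃ c : ℤ_[l], ∀ (g : GG l) (σ : AbsGal F), Compat ι g σ → al l x σ = c * (chiZ l σ - 1) :=
  sm_coboundary (BB_ne_zero x) (exists_pow_BB x) ι

theorem be_coboundary (ι : AlgebraicClosure F →+* PadicAlgCl l) :
    ∃ c : ℤ_[l], ∀ (g : GG l) (σ : AbsGal F), Compat ι g σ → be l σ = c * (chiZ l σ - 1) :=
  sm_coboundary (fun i => (QQ_prime (l := l) i).ne_zero) exists_pow_Q ι

/-- the condition on a cochain -/
def IsCo (a : AbsGal F → ℚ_[l]) (C : AbsGal F → ℚ_[l]) : Prop :=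
  ∀ g h : AbsGal F, C (g * h) = C g + a h * (chi l g * (be l g : ℚ_[l])) + chi l g ^ 2 * C h

variable {a C : AbsGal F → ℚ_[l]}

theorem IsCo.one (hC : IsCo a C) : C 1 = 0 := by
  have h := hC 1 1
  rw [be_one] at h
  have h1 : chi l (1 : AbsGal F) = 1 := chi_one
  rw [h1, mul_one] at h
  simpa using h

theorem IsCo.mul_left (hC : IsCo a C) {g h : AbsGal F} (hg : chiZ l g = 1)
    (hg' : be l g = 0) : C (g * h) = C g + C h := by
  rw [hC, hg', ← coe_chiZ, hg]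
  simp

theorem IsCo.pow (hC : IsCo a C) {g : AbsGal F} (hg : chiZ l g = 1)
    (hg' : be l g = 0) (n : ℕ) : C (g ^ n) = n * C g := by
  induction n with
  | zero => simp [hC.one]
  | succ n ih =>
    rw [pow_succ', hC.mul_left hg hg', ih]
    push_cast
    ring

variable {p : ℕ} [hp : Fact p.Prime] {ι : AlgebraicClosure F →+* PadicAlgCl p}

/-- The relation between the values of the cochain at a tame element and at a Frobenius element. -/
theorem IsCo.rel (hC : IsCo a C) (hcont : Continuous C) (hpl : p ≠ l)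
    (hpQ : ∀ j, ¬ p ∣ QQ' l j) {S T : GG p} {q : ℕ}
    (hS : Frob S q) (hT : Inert T) {s t : AbsGal F} (hs : Compat ι S s) (ht : Compat ι T t) :
    C t * (1 - q) = a t * (be l s : ℚ_[l]) := by
  have h1 : chiZ l t = 1 := chi_inert hpl ht hT
  have h2 : be l t = 0 := sm_inert hpl hpQ ht hT
  set w : AbsGal F := s * t * s⁻¹ * (t ^ q)⁻¹ with hw
  have hW := wild_of hT hS
  have hWc : Compat ι (S * T * S⁻¹ * (T ^ q)⁻¹) w := ((hs.mul ht).mul hs.inv).mul (ht.pow q).inv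
  have h3 : chiZ l w = 1 := chi_inert hpl hWc hW.inert
  have h4 : be l w = 0 := sm_inert hpl hpQ hWc hW.inert
  have h5 : C w = 0 := wild_zero hpl hcont hC.one hW hWc fun n => hC.pow h3 h4 n
  have h6 : s * t = w * (t ^ q * s) := by rw [hw]; group
  have h7 : chiZ l s = q := chi_frob hpl hs hS
  have h8 := congrArg C h6
  have h9 : chiZ l (t ^ q) = 1 := chi_inert hpl (ht.pow q) (hT.pow q)
  have h10 : be l (t ^ q) = 0 := sm_inert hpl hpQ (ht.pow q) (hT.pow q)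
  rw [hC.mul_left h3 h4, h5, hC.mul_left h9 h10, hC.pow h1 h2, hC s t, ← coe_chiZ, h7] at h8
  rw [PadicInt.coe_natCast] at h8
  have hq : (q : ℚ_[l]) ≠ 0 := by
    have : (chiZ l s : ℤ_[l]) ≠ 0 := (Pool.Agent.N829.HT.chiF F l s).ne_zero
    rw [h7] at this
    intro h0
    apply this
    exact_mod_cast h0
  have h11 : (q : ℚ_[l]) * (C t * (1 - q)) = q * (a t * (be l s : ℚ_[l])) := by
    linear_combination -h8
  exact mul_left_cancel₀ hq h11

/-- the value of `be` at a Frobenius element -/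
theorem be_frob (i : ℕ) [hp : Fact (PP l i).Prime] {ι : AlgebraicClosure F →+* PadicAlgCl (PP l i)}
    {S : GG (PP l i)} {q : ℕ} (hq : 1 < q) (hdvd : l ^ mmm l i ∣ q - 1) (hS : Frob S q)
    {s : AbsGal F} (hs : Compat ι S s) :
    (l : ℝ) ^ mmm l i * ‖(q : ℤ_[l]) - 1‖ ≤ ‖be l s‖ := by
  have hl1 : (1 : ℝ) < l := by exact_mod_cast hl.out.one_lt
  have hpl : PP l i ≠ l := PP_ne i
  have hz := (isZ_zF F l).map ι
  have hm : 0 < mmm l i := by
    have := mmm_ge (l := l) i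
    omega
  set D : ℕ := ∏ j ∈ Finset.range (i + 1), QQ' l j ^ l ^ j with hD
  have hD0 : ¬ PP l i ∣ D := not_dvd_D i
  have hQ0 : ∀ j, QQ' l j ≠ 0 := fun j => (QQ_prime (l := l) j).ne_zero
  have hr := (isRoots_rprod (F := F) (l := l) hQ0 (i + 1)).map ι
  have h1 : kum l (fun n => ι (zF F l n)) (fun n => ι (rprod F l (QQ' l) (i + 1) n)) (rh S) =
      ∑ j ∈ Finset.range (i + 1), (l : ℤ_[l]) ^ j * kap l (QQ' l j) s := by
    refine kum_unique hz hr (σ := rh S) ?_ fun n => ?_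
    · rw [map_natCast, map_natCast]
    · rw [rh_apply, ← hs, rprod_spec hQ0, map_mul, map_ee]
  have h2 := kum_frob hz hr hpl (map_natCast _ _) hD0 hm hq hS (PP_order i) hdvd
  rw [h1] at h2
  have h3 : ‖be l s - ∑ j ∈ Finset.range (i + 1), (l : ℤ_[l]) ^ j * kap l (QQ' l j) s‖ ≤
      ‖(q : ℤ_[l]) - 1‖ := by
    refine sm_tail _ s (i + 1) (norm_nonneg _) fun j hj => ?_
    have hj0 := (QQ_prime (l := l) j).ne_zero
    rw [kap_compat hj0 hs]
    exact kum_frob_one hz ((isRoots_rF (F := F) l hj0).map ι) hpl (map_natCast _ _)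
      (QQ_modEq (by omega)) hq hS
  have hqn : (0 : ℝ) < ‖(q : ℤ_[l]) - 1‖ := by
    rw [norm_pos_iff, sub_ne_zero]
    intro h
    have h2 : ((q : ℕ) : ℤ_[l]) = ((1 : ℕ) : ℤ_[l]) := by rw [h, Nat.cast_one]
    exact hq.ne' (Nat.cast_injective h2)
  have h4 : ‖(q : ℤ_[l]) - 1‖ < (l : ℝ) ^ mmm l i * ‖(q : ℤ_[l]) - 1‖ := by
    have h5 : (1 : ℝ) < (l : ℝ) ^ mmm l i := one_lt_pow₀ hl1 hm.ne'
    nlinarith
  have h5 := (h3.trans_lt h4).trans_le h2
  have h6 : ‖be l s‖ =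
      ‖∑ j ∈ Finset.range (i + 1), (l : ℤ_[l]) ^ j * kap l (QQ' l j) s‖ := by
    have e : be l s = (be l s -
      ∑ j ∈ Finset.range (i + 1), (l : ℤ_[l]) ^ j * kap l (QQ' l j) s) +
      ∑ j ∈ Finset.range (i + 1), (l : ℤ_[l]) ^ j * kap l (QQ' l j) s := by ring
    conv_lhs => rw [e]
    rw [PadicInt.norm_add_eq_max_of_ne h5.ne, max_eq_right h5.le]
  rw [h6]
  exact h2

theorem core_bound {S : Finset (ℕ → Bool)} {c : (ℕ → Bool) → ℚ_[l]} {x0 : ℕ → Bool} (hx0 : x0 ∈ S)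
    (hC : IsCo (fun σ : AbsGal F => ∑ x ∈ S, c x * (al l x σ : ℚ_[l])) C) (hcont : Continuous C)
    (n : ℕ) (hn : ∀ y ∈ S, y ≠ x0 → ∃ k ≤ n, x0 k ≠ y k) :
    ∃ t : AbsGal F, ‖c x0‖ * (l : ℝ) ^ (n + 1) ≤ Module.finrank ℚ F * ‖C t‖ := by
  classical
  obtain ⟨i, hi⟩ : ∃ i, i = idx x0 n := ⟨_, rfl⟩
  have hni : n ≤ i := hi ▸ le_idx x0 n
  have hl0 : (0 : ℝ) < l := by exact_mod_cast hl.out.pos
  have hl1 : (1 : ℝ) ≤ l := by exact_mod_cast hl.out.one_lt.le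
  have hp : Fact (PP l i).Prime := ⟨PP_prime i⟩
  have hpl : PP l i ≠ l := PP_ne i
  have hp0 : PP l i ≠ 0 := hp.out.ne_zero
  have hPR0 : PP l i * RR l i ≠ 0 := mul_ne_zero hp0 (RR_prime i).ne_zero
  have hBB : BB l x0 n = PP l i * RR l i := by rw [hi]; rfl
  obtain ⟨ι⟩ := exists_embedding (F := F) (p := PP l i)
  obtain ⟨S0, hS0⟩ := exists_frob (p := PP l i)
  have hr := (isRoots_rF (F := F) l hPR0).map ι
  have hz := (isZ_zF F l).map ι
  obtain ⟨T0, hT0, hT0'⟩ := exists_tame' (p := PP l i) (l := l) hpl (R := RR l i) (not_dvd_RR i)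
    (π := ι (rF F l (PP l i * RR l i) 1)) (by
    have := hr.pow 1
    rw [pow_one] at this
    rw [this, map_natCast])
  obtain ⟨k, s, hk0, hkD, hs⟩ := exists_pow_compat ι S0
  obtain ⟨k', t, hk0', hkD', ht⟩ := exists_pow_compat ι T0
  refine ⟨t, ?_⟩
  have hS : Frob (S0 ^ k) (PP l i ^ k) := hS0.pow k
  have hT : Inert (T0 ^ k') := hT0.pow k'
  have hrel := hC.rel hcont hpl (not_dvd_QQ i) hS hT hs ht
  -- the value of the cocycles at `t`
  have hb : (rh T0) (ι ((PP l i * RR l i : ℕ) : AlgebraicClosure F)) =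
      ι ((PP l i * RR l i : ℕ) : AlgebraicClosure F) := by
    rw [map_natCast, map_natCast]
  have ha1 : kap l (PP l i * RR l i) t = k' * kum l (fun n => ι (zF F l n))
      (fun n => ι (rF F l (PP l i * RR l i) n)) (rh T0) := by
    rw [kap_compat hPR0 ht]
    exact kum_pow hz hr hpl hT0 hb k'
  have ha2 : ‖kum l (fun n => ι (zF F l n)) (fun n => ι (rF F l (PP l i * RR l i) n)) (rh T0)‖ = 1 :=
    kum_tame hz hr hb hT0'
  have ha3 : al l x0 t = (l : ℤ_[l]) ^ n * kap l (PP l i * RR l i) t := by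
    rw [al, sm, ← hBB]
    refine tsum_eq_single n fun j hj => ?_
    rw [kap_inert hpl ht hT (hi ▸ not_dvd_BB x0 hj.symm), mul_zero]
  have ha5 : (∑ x ∈ S, c x * (al l x t : ℚ_[l])) = c x0 * (al l x0 t : ℚ_[l]) := by
    refine Finset.sum_eq_single_of_mem x0 hx0 fun y hy hyx => ?_
    obtain ⟨k, hk, hxy⟩ := hn y hy hyx
    have h0 : al l y t = 0 := sm_inert hpl (fun m => hi ▸ not_dvd_BB' hxy hk m) ht hT
    rw [h0, PadicInt.coe_zero, mul_zero]
  have ha4 : ‖(∑ x ∈ S, c x * (al l x t : ℚ_[l]))‖ =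
      ‖c x0‖ * ((l : ℝ) ^ (-n : ℤ) * ‖(k' : ℚ_[l])‖) := by
    rw [ha5, norm_mul, ← PadicInt.norm_def, ha3, ha1, norm_mul, norm_mul, ha2, mul_one,
      PadicInt.norm_p_pow]
    rfl
  -- the value of `be` at `s`
  have hq1 : 1 < PP l i ^ k := Nat.one_lt_pow hk0.ne' hp.out.one_lt
  have hdvd : l ^ mmm l i ∣ PP l i ^ k - 1 := by
    refine (order_dvd (PP_prime i) (PP_order i)).trans ?_
    have := Nat.sub_dvd_pow_sub_pow (PP l i) 1 k
    rwa [one_pow] at this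
  have hb0 := be_frob i hq1 hdvd hS hs
  have hb1 : (l : ℝ) ^ (2 * n + 1) * ‖((PP l i ^ k : ℕ) : ℤ_[l]) - 1‖ ≤ ‖be l s‖ := by
    refine le_trans ?_ hb0
    have h1 : (l : ℝ) ^ (2 * n + 1) ≤ (l : ℝ) ^ mmm l i :=
      pow_le_pow_right₀ hl1 ((by omega : 2 * n + 1 ≤ 2 * i + 1).trans (mmm_ge i))
    gcongr
  have hnk : (1 : ℝ) ≤ Module.finrank ℚ F * ‖(k' : ℚ_[l])‖ := by
    have h1 : ((k' : ℝ))⁻¹ ≤ ‖(k' : ℚ_[l])‖ := norm_natCast_ge hk0'.ne'
    have h2 : (k' : ℝ) ≤ Module.finrank ℚ F := by exact_mod_cast hkD'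
    have h3 : (0 : ℝ) < k' := by exact_mod_cast hk0'
    calc (1 : ℝ) = k' * (k' : ℝ)⁻¹ := (mul_inv_cancel₀ h3.ne').symm
      _ ≤ Module.finrank ℚ F * ‖(k' : ℚ_[l])‖ := by gcongr
  have hqn : (0 : ℝ) < ‖((PP l i ^ k : ℕ) : ℤ_[l]) - 1‖ := by
    rw [norm_pos_iff, sub_ne_zero]
    intro h
    have h2 : (((PP l i ^ k : ℕ) : ℤ_[l])) = ((1 : ℕ) : ℤ_[l]) := by rw [h, Nat.cast_one]
    exact hq1.ne' (Nat.cast_injective h2)
  have hn := congrArg norm hrel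
  rw [norm_mul, norm_mul, ha4] at hn
  have hn2 : ‖(1 : ℚ_[l]) - ((PP l i ^ k : ℕ) : ℚ_[l])‖ = ‖((PP l i ^ k : ℕ) : ℤ_[l]) - 1‖ := by
    rw [norm_sub_rev, PadicInt.norm_def]
    push_cast
    rfl
  rw [hn2, ← PadicInt.norm_def] at hn
  have hkey : (‖c x0‖ * (l : ℝ) ^ (n + 1)) * ‖((PP l i ^ k : ℕ) : ℤ_[l]) - 1‖ ≤
      (Module.finrank ℚ F * ‖C t‖) * ‖((PP l i ^ k : ℕ) : ℤ_[l]) - 1‖ := by
    rw [mul_assoc (Module.finrank ℚ F : ℝ), hn]
    have e1 : (‖c x0‖ * (l : ℝ) ^ (n + 1)) * ‖((PP l i ^ k : ℕ) : ℤ_[l]) - 1‖ =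
        1 * (‖c x0‖ * ((l : ℝ) ^ (-n : ℤ) *
          ((l : ℝ) ^ (2 * n + 1) * ‖((PP l i ^ k : ℕ) : ℤ_[l]) - 1‖))) := by
      have e3 : (l : ℝ) ^ (n + 1) = (l : ℝ) ^ (-n : ℤ) * (l : ℝ) ^ (2 * n + 1) := by
        rw [← zpow_natCast, ← zpow_natCast, ← zpow_add₀ hl0.ne']
        congr 1
        push_cast
        ring
      rw [e3]
      ring
    have e2 : (Module.finrank ℚ F : ℝ) * (‖c x0‖ * ((l : ℝ) ^ (-n : ℤ) * ‖(k' : ℚ_[l])‖) *
        ‖be l s‖) =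
        (Module.finrank ℚ F * ‖(k' : ℚ_[l])‖) * (‖c x0‖ * ((l : ℝ) ^ (-n : ℤ) * ‖be l s‖)) := by
      ring
    rw [e1, e2]
    gcongr
  exact le_of_mul_le_mul_right hkey hqn

/-- There is no continuous cochain. -/
theorem no_function {S : Finset (ℕ → Bool)} {c : (ℕ → Bool) → ℚ_[l]} {x0 : ℕ → Bool} (hx0 : x0 ∈ S)
    (hc : c x0 ≠ 0)
    (hC : IsCo (fun σ : AbsGal F => ∑ x ∈ S, c x * (al l x σ : ℚ_[l])) C) (hcont : Continuous C) :
    False := by
  classical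
  have hl1 : (1 : ℝ) < l := by exact_mod_cast hl.out.one_lt
  obtain ⟨B, hB⟩ := (isCompact_range (continuous_norm.comp hcont)).bddAbove
  have hB' : ∀ t, ‖C t‖ ≤ B := fun t => hB ⟨t, rfl⟩
  have hc0 : 0 < ‖c x0‖ := norm_pos_iff.2 hc
  obtain ⟨n1, hn1⟩ := pow_unbounded_of_one_lt (Module.finrank ℚ F * B / ‖c x0‖) hl1
  have hne : ∀ y : ℕ → Bool, ∃ k, y ≠ x0 → x0 k ≠ y k := by
    intro y
    by_cases h : y = x0
    · exact ⟨0, fun h' => absurd h h'⟩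
    · obtain ⟨k, hk⟩ := Function.ne_iff.1 h
      exact ⟨k, fun _ => hk.symm⟩
  choose K hK using hne
  obtain ⟨n, hn⟩ : ∃ n, n = n1 + ∑ y ∈ S, K y := ⟨_, rfl⟩
  obtain ⟨t, ht⟩ := core_bound hx0 hC hcont n fun y hy hyx => ⟨K y, by
    have := Finset.single_le_sum (f := K) (fun _ _ => Nat.zero_le _) hy
    omega, hK y hyx⟩
  have h1 : (l : ℝ) ^ n1 ≤ (l : ℝ) ^ (n + 1) := pow_le_pow_right₀ hl1.le (by omega)
  have h2 : (Module.finrank ℚ F : ℝ) * ‖C t‖ ≤ Module.finrank ℚ F * B := by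
    gcongr
    exact hB' t
  rw [div_lt_iff₀ hc0] at hn1
  have h3 : ‖c x0‖ * (l : ℝ) ^ n1 ≤ ‖c x0‖ * (l : ℝ) ^ (n + 1) := by gcongr
  nlinarith

end Pool.Agent.H68.CD
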