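import Mathlib
import Pool.Agent.H68.CD.Cat

/-!
# Kummer cocycles and the extensions of `V` by `V(1)`
-/

set_option autoImplicit false
set_option linter.unusedSectionVars false

open NumberField CategoryTheory Polynomial Pool.Agent.N491.CD

namespace Pool.Agent.H68.CD

variable {F : Type} [Field F] [NumberField F] {l : ℕ} [hl : Fact l.Prime]

section rep

variable {M : Type} [AddCommGroup M] [Module ℚ_[l] M] (ρ : Representation ℚ_[l] (AbsGal F) M)

/-- the action of `g` on the twist `M(n)`: `chi g ^ n` times the action on `M` -/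
noncomputable def twistMap (n : ℤ) (g : AbsGal F) : M →ₗ[ℚ_[l]] M := (chi l g ^ n) • ρ g

theorem twistMap_one (n : ℤ) : twistMap ρ n 1 = 1 := by
  change chi l (1 : AbsGal F) ^ n • ρ 1 = 1
  rw [chi_one, one_zpow, one_smul, map_one]

theorem twistMap_mul (n : ℤ) (g h : AbsGal F) :
    twistMap ρ n (g * h) = twistMap ρ n g * twistMap ρ n h := by
  refine LinearMap.ext fun x => ?_
  change chi l (g * h) ^ n • ρ (g * h) x = chi l g ^ n • ρ g (chi l h ^ n • ρ h x)
  rw [chi_mul, mul_zpow, map_mul, map_smul, mul_smul]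
  rfl

/-- the twisted representation -/
noncomputable def twistRep (n : ℤ) : Representation ℚ_[l] (AbsGal F) M where
  toFun := twistMap ρ n
  map_one' := twistMap_one ρ n
  map_mul' := twistMap_mul ρ n

end rep

/-- the twist `V(n)`: the same vector space, on which `g` acts as `chi g ^ n` times its action on `V` -/
noncomputable def twist (V : Reps F l) (n : ℤ) : Reps F l := Rep.of (twistRep V.ρ n)

variable (F l) in
/-- The vector space of the Kummer cocycles: the continuous maps `a` from the Galois group to `ℚ_l` with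
`a (g h) = a g + chi g * a h` which are coboundaries `c (chi - 1)` on the decomposition groups at all
places above `l`. -/
def Cyc : Submodule ℚ_[l] (AbsGal F → ℚ_[l]) where
  carrier := {a | ((∀ g h, a (g * h) = a g + chi l g * a h) ∧ Continuous a) ∧
    ∀ ι : AlgebraicClosure F →+* PadicAlgCl l, ∃ c : ℚ_[l], ∀ σ, InDecomposition ι σ →
      a σ = c * (chi l σ - 1)}
  zero_mem' := ⟨⟨fun g h => by simp, continuous_const⟩, fun ι => ⟨0, fun σ _ => by simp⟩⟩
  add_mem' := by
    rintro a b ⟨⟨ham, hac⟩, ha'⟩ ⟨⟨hbm, hbc⟩, hb'⟩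
    refine ⟨⟨fun g h => ?_, hac.add hbc⟩, fun ι => ?_⟩
    · change a (g * h) + b (g * h) = a g + b g + chi l g * (a h + b h)
      rw [ham, hbm]
      ring
    · obtain ⟨c, hc⟩ := ha' ι
      obtain ⟨d, hd⟩ := hb' ι
      refine ⟨c + d, fun σ hσ => ?_⟩
      change a σ + b σ = _
      rw [hc σ hσ, hd σ hσ]
      ring
  smul_mem' := by
    rintro r a ⟨⟨ham, hac⟩, ha'⟩
    refine ⟨⟨fun g h => ?_, continuous_const.mul hac⟩, fun ι => ?_⟩
    · change r * a (g * h) = r * a g + chi l g * (r * a h)
      rw [ham]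
      ring
    · obtain ⟨c, hc⟩ := ha' ι
      refine ⟨r * c, fun σ hσ => ?_⟩
      change r * a σ = _
      rw [hc σ hσ]
      ring

theorem coc (a : Cyc F l) : IsCoc a.1 := ⟨a.2.1.1, a.2.1.2⟩

section ext

variable {M : Type} [AddCommGroup M] [Module ℚ_[l] M] (ρ : Representation ℚ_[l] (AbsGal F) M)

/-- the action of `g` on the extension: `(x, y) ↦ (chi g • g x + a g • g y, g y)` -/
noncomputable def extFun (a : AbsGal F → ℚ_[l]) (g : AbsGal F) (x : M × M) : M × M :=
  (chi l g • ρ g x.1 + a g • ρ g x.2, ρ g x.2)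

theorem extFun_add (a : AbsGal F → ℚ_[l]) (g : AbsGal F) (x y : M × M) :
    extFun ρ a g (x + y) = extFun ρ a g x + extFun ρ a g y := by
  refine Prod.ext ?_ ?_
  · change chi l g • ρ g (x.1 + y.1) + a g • ρ g (x.2 + y.2) =
      (chi l g • ρ g x.1 + a g • ρ g x.2) + (chi l g • ρ g y.1 + a g • ρ g y.2)
    rw [map_add, map_add]
    module
  · exact map_add (ρ g) _ _

theorem extFun_smul (a : AbsGal F → ℚ_[l]) (g : AbsGal F) (r : ℚ_[l]) (x : M × M) :
    extFun ρ a g (r • x) = r • extFun ρ a g x := by
  refine Prod.ext ?_ ?_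
  · change chi l g • ρ g (r • x.1) + a g • ρ g (r • x.2) =
      r • (chi l g • ρ g x.1 + a g • ρ g x.2)
    rw [map_smul, map_smul]
    module
  · exact map_smul (ρ g) r _

/-- the action of `g` on the extension as a linear map -/
noncomputable def extMap (a : AbsGal F → ℚ_[l]) (g : AbsGal F) : (M × M) →ₗ[ℚ_[l]] (M × M) where
  toFun := extFun ρ a g
  map_add' := extFun_add ρ a g
  map_smul' := extFun_smul ρ a g

theorem extMap_one (a : Cyc F l) : extMap ρ a.1 1 = 1 := by
  refine LinearMap.ext fun x => ?_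
  refine Prod.ext ?_ ?_
  · change chi l (1 : AbsGal F) • ρ 1 x.1 + a.1 1 • ρ 1 x.2 = x.1
    rw [chi_one, (coc a).one, map_one]
    change (1 : ℚ_[l]) • x.1 + (0 : ℚ_[l]) • x.2 = x.1
    module
  · change ρ 1 x.2 = x.2
    rw [map_one]
    rfl

theorem extMap_mul (a : Cyc F l) (g h : AbsGal F) :
    extMap ρ a.1 (g * h) = extMap ρ a.1 g * extMap ρ a.1 h := by
  refine LinearMap.ext fun x => ?_
  refine Prod.ext ?_ ?_
  · change chi l (g * h) • ρ (g * h) x.1 + a.1 (g * h) • ρ (g * h) x.2 =
      chi l g • ρ g (chi l h • ρ h x.1 + a.1 h • ρ h x.2) + a.1 g • ρ g (ρ h x.2)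
    rw [chi_mul, (coc a).mul, map_mul, map_add, map_smul, map_smul]
    change (chi l g * chi l h) • ρ g (ρ h x.1) + (a.1 g + chi l g * a.1 h) • ρ g (ρ h x.2) =
      _
    module
  · change ρ (g * h) x.2 = ρ g (ρ h x.2)
    rw [map_mul]
    rfl

/-- the extension as a representation on `M × M` -/
noncomputable def extRepM (a : Cyc F l) : Representation ℚ_[l] (AbsGal F) (M × M) where
  toFun := extMap ρ a.1
  map_one' := extMap_one ρ a
  map_mul' := extMap_mul ρ a

end ext

/-- The extension of `V` by `V(1)` given by a Kummer cocycle `a`: the vector space `V × V`, on which `g`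
acts as `(x, y) ↦ (chi g • g x + a g • g y, g y)`. -/
noncomputable def ExtV (V : Reps F l) (a : Cyc F l) : Reps F l := Rep.of (extRepM V.ρ a)

/-- Hypotheses on a class `𝒜` of representations: it contains the zero representation, it is closed
under subobjects, quotients and finite direct sums, and with `V` it contains the extension of `V` by
`V(1)` given by any Kummer cocycle; this extension is isomorphic to the direct sum of `V` and `V(1)` at
all places above `l`. -/
class IsKummerClosed (𝒜 : ObjectProperty (Reps F l)) : Prop extends IsAdm 𝒜 where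
  kummer : ∀ V : Reps F l, 𝒜 V → ∀ a : Cyc F l, 𝒜 (ExtV V a)

end Pool.Agent.H68.CD
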