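import Mathlib
import Pool.Agent.H68.CD.Defs

/-!
# The extensions of `V` by `V(1)` given by Kummer cocycles
-/

set_option autoImplicit false
set_option linter.unusedSectionVars false
set_option maxHeartbeats 1000000

open NumberField CategoryTheory Polynomial Limits Pool.Agent.N491.CD

namespace Pool.Agent.H68.CD

variable {F : Type} [Field F] [NumberField F] {l : ℕ} [hl : Fact l.Prime]

theorem ExtV_apply (V : Reps F l) (a : Cyc F l) (g : AbsGal F) (x : V × V) :
    (ExtV V a).ρ g x = (chi l g • V.ρ g x.1 + a.1 g • V.ρ g x.2, V.ρ g x.2) := rfl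

theorem ladic_ExtV {V : Reps F l} (hV : IsLadic V.ρ) (a : Cyc F l) : IsLadic (ExtV V a).ρ where
  finite := by
    have := hV.finite
    exact inferInstanceAs (FiniteDimensional ℚ_[l] (V × V))
  continuous v f := by
    let f' : (V × V) →ₗ[ℚ_[l]] ℚ_[l] := f
    let v' : V × V := v
    have h1 : (fun g : AbsGal F => f ((ExtV V a).ρ g v)) = fun g =>
        chi l g * (f' ∘ₗ LinearMap.inl _ _ _) (V.ρ g v'.1) +
        a.1 g * (f' ∘ₗ LinearMap.inl _ _ _) (V.ρ g v'.2) +
        (f' ∘ₗ LinearMap.inr _ _ _) (V.ρ g v'.2) := by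
      funext g
      have h2 : (ExtV V a).ρ g v = chi l g • (V.ρ g v'.1, (0 : V)) + a.1 g • (V.ρ g v'.2, (0 : V)) +
          ((0 : V), V.ρ g v'.2) := by
        rw [ExtV_apply]
        refine Prod.ext ?_ ?_
        · change _ = chi l g • V.ρ g v'.1 + a.1 g • V.ρ g v'.2 + 0
          rw [add_zero]
        · change _ = chi l g • (0 : V) + a.1 g • (0 : V) + V.ρ g v'.2
          rw [smul_zero, smul_zero, zero_add, zero_add]
      change f' ((ExtV V a).ρ g v) = _
      rw [h2, map_add, map_add, map_smul, map_smul]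
      rfl
    rw [h1]
    exact ((continuous_chi.mul (hV.continuous _ _)).add ((coc a).cont.mul (hV.continuous _ _))).add
      (hV.continuous _ _)

/-- the scaled polynomial -/
theorem scale_zero {q : ℕ} (hq : 0 < q) {m : ℤ} {Q : ℚ[X]}
    (hQ : ∀ z : ℂ, aeval z Q = 0 → ‖z‖ = (q : ℝ) ^ (((m + 2 : ℤ) : ℝ) / 2)) (z : ℂ)
    (hz : aeval z (Q.comp (C (q : ℚ) * X)) = 0) : ‖z‖ = (q : ℝ) ^ ((m : ℝ) / 2) := by
  rw [aeval_comp, map_mul, aeval_C, aeval_X, map_natCast] at hz
  have h1 := hQ _ hz
  rw [norm_mul, Complex.norm_natCast] at h1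
  have hq0 : (0 : ℝ) < q := by exact_mod_cast hq
  have h2 : (q : ℝ) ^ (((m + 2 : ℤ) : ℝ) / 2) = q * (q : ℝ) ^ ((m : ℝ) / 2) := by
    have h3 : (((m + 2 : ℤ) : ℝ) / 2) = 1 + (m : ℝ) / 2 := by
      push_cast
      ring
    rw [h3, Real.rpow_add hq0, Real.rpow_one]
  rw [h2] at h1
  exact mul_left_cancel₀ hq0.ne' h1

theorem aeval_inl (V : Reps F l) (a : Cyc F l) (g : AbsGal F) (Q : ℚ_[l][X]) (x : V) :
    aeval ((ExtV V a).ρ g) Q ((x, (0 : V)) : V × V) = ((aeval (chi l g • V.ρ g) Q x, (0 : V)) : V × V) := by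
  induction Q using Polynomial.induction_on' generalizing x with
  | add p q hp hq =>
    simp only [map_add, LinearMap.add_apply]
    rw [hp, hq]
    refine Prod.ext rfl ?_
    change (0 : V) + 0 = 0
    rw [add_zero]
  | monomial n r =>
    have h : ∀ n : ℕ, ∀ x : V, ((ExtV V a).ρ g ^ n) ((x, (0 : V)) : V × V) =
        ((((chi l g • V.ρ g) ^ n) x, (0 : V)) : V × V) := by
      intro n
      induction n with
      | zero => intro x; rfl
      | succ n ih =>
        intro x
        rw [pow_succ', pow_succ', Module.End.mul_apply, Module.End.mul_apply, ih, ExtV_apply]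
        refine Prod.ext ?_ ?_
        · change chi l g • V.ρ g _ + a.1 g • V.ρ g 0 = chi l g • V.ρ g _
          rw [map_zero, smul_zero, add_zero]
        · change V.ρ g 0 = 0
          rw [map_zero]
    rw [aeval_monomial, aeval_monomial, Module.End.mul_apply, Module.End.mul_apply, h,
      Module.algebraMap_end_apply, Module.algebraMap_end_apply]
    refine Prod.ext rfl ?_
    change r • (0 : V) = 0
    rw [smul_zero]

theorem aeval_snd (V : Reps F l) (a : Cyc F l) (g : AbsGal F) (Q : ℚ_[l][X]) (x : V × V) :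
    (aeval ((ExtV V a).ρ g) Q x : V × V).2 = aeval (V.ρ g) Q x.2 := by
  induction Q using Polynomial.induction_on' generalizing x with
  | add p q hp hq =>
    simp only [map_add, LinearMap.add_apply]
    rw [← hp, ← hq]
    rfl
  | monomial n r =>
    have h : ∀ n : ℕ, ∀ x : V × V, (((ExtV V a).ρ g ^ n) x : V × V).2 = ((V.ρ g) ^ n) x.2 := by
      intro n
      induction n with
      | zero => intro x; rfl
      | succ n ih =>
        intro x
        rw [pow_succ', pow_succ', Module.End.mul_apply, Module.End.mul_apply, ← ih]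
        rfl
    rw [aeval_monomial, aeval_monomial, Module.End.mul_apply, Module.End.mul_apply, ← h,
      Module.algebraMap_end_apply, Module.algebraMap_end_apply]
    rfl

end Pool.Agent.H68.CD
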