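import Mathlib
import Pool.Agent.H68.CD.Mix

/-!
# The extensions of a mixed representation `V` by `V(1)` given by Kummer cocycles are mixed
-/

set_option autoImplicit false
set_option linter.unusedSectionVars false
set_option maxHeartbeats 1000000

open NumberField CategoryTheory Polynomial Limits Pool.Agent.N491.CD

namespace Pool.Agent.H68.CD

variable {F : Type} [Field F] [NumberField F] {l : ℕ} [hl : Fact l.Prime]

/-- `W` is a weight filtration of the representation: a finite increasing filtration by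
subrepresentations such that `W m / W (m - 1)` is pure of weight `m` for all `m`. -/
def IsWeight {V : Type} [AddCommGroup V] [Module ℚ_[l] V] (ρ : Representation ℚ_[l] (AbsGal F) V)
    (W : ℤ → Submodule ℚ_[l] V) : Prop :=
  (∀ m g, ∀ x ∈ W m, ρ g x ∈ W m) ∧ Monotone W ∧
    (∃ a, W a = ⊥) ∧ (∃ b, W b = ⊤) ∧ ∀ m, PureGr ρ (W (m - 1)) (W m) m

theorem weight_ExtV {V : Reps F l} {W : ℤ → Submodule ℚ_[l] V} (hV : IsWeight V.ρ W) (a : Cyc F l) :
    IsWeight (ExtV V a).ρ fun m => ((W (m + 2)).prod (W m) : Submodule ℚ_[l] (V × V)) := by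
  obtain ⟨hW, hm, ⟨α, hα⟩, ⟨β, hβ⟩, hp⟩ := hV
  let U : ℤ → Submodule ℚ_[l] (V × V) := fun m => (W (m + 2)).prod (W m)
  have hU : ∀ m g, ∀ x ∈ U m, ((ExtV V a).ρ g x : V × V) ∈ U m := by
    intro m g x hx
    rw [ExtV_apply]
    refine ⟨?_, hW m g _ hx.2⟩
    exact Submodule.add_mem _ (Submodule.smul_mem _ _ (hW _ g _ hx.1))
      (Submodule.smul_mem _ _ (hW _ g _ (hm (by omega) hx.2)))
  refine ⟨hU, ?_, ⟨α - 2, ?_⟩, ⟨β, ?_⟩, ?_⟩
  · intro m n hmn x hx
    exact ⟨hm (by omega) hx.1, hm hmn hx.2⟩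
  · change (W (α - 2 + 2)).prod (W (α - 2)) = ⊥
    have h1 : W (α - 2 + 2) = ⊥ := by rw [sub_add_cancel]; exact hα
    have h2 : W (α - 2) = ⊥ := by
      rw [eq_bot_iff, ← hα]
      exact hm (by omega)
    rw [h1, h2, Submodule.prod_bot]
  · change (W (β + 2)).prod (W β) = ⊤
    have h1 : W (β + 2) = ⊤ := by
      rw [eq_top_iff, ← hβ]
      exact hm (by omega)
    rw [h1, hβ, Submodule.prod_top]
  · intro m
    obtain ⟨N, hN, h1⟩ := hp m
    obtain ⟨N', hN', h1'⟩ := hp (m + 2)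
    refine ⟨N * N', mul_ne_zero hN hN', fun P hP hNP hlP => ?_⟩
    have hNP1 : (N : 𝓞 (AlgebraicClosure F)) ∉ P := fun h => hNP (by
      rw [Nat.cast_mul]
      exact P.mul_mem_right _ h)
    have hNP2 : (N' : 𝓞 (AlgebraicClosure F)) ∉ P := fun h => hNP (by
      rw [Nat.cast_mul]
      exact P.mul_mem_left _ h)
    obtain ⟨h2, h3⟩ := h1 P hP hNP1 hlP
    obtain ⟨h2', h3'⟩ := h1' P hP hNP2 hlP
    have em : m - 1 + 2 = m + 2 - 1 := by ring
    refine ⟨fun τ hτ x hx => ?_, fun Φ hΦ => ?_⟩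
    · change ((ExtV V a).ρ τ x - x : V × V) ∈ U (m - 1)
      let x' : V × V := x
      have hx' : x'.1 ∈ W (m + 2) ∧ x'.2 ∈ W m := hx
      refine ⟨?_, h2 τ hτ _ hx'.2⟩
      have h9 : V.ρ τ x'.1 - x'.1 + a.1 τ • V.ρ τ x'.2 ∈ W (m + 2 - 1) :=
        Submodule.add_mem _ (h2' τ hτ _ hx'.1)
          (Submodule.smul_mem _ _ (hW _ τ _ (hm (by omega) hx'.2)))
      have h10 : chi l τ • V.ρ τ x'.1 + a.1 τ • V.ρ τ x'.2 - x'.1 =
          V.ρ τ x'.1 - x'.1 + a.1 τ • V.ρ τ x'.2 := by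
        rw [chi_inertia hP hlP hτ, one_smul, add_sub_right_comm]
      rw [← h10, ← em] at h9
      exact h9
    · obtain ⟨Q, hQ, h4, h5⟩ := h3 Φ hΦ
      obtain ⟨Q', hQ', h4', h5'⟩ := h3' Φ hΦ
      have hq := residueCard_pos hP hlP hΦ
      have hχ := chi_frobenius hP hlP hΦ
      obtain ⟨q, hqq⟩ : ∃ q, q = residueCard P := ⟨_, rfl⟩
      rw [← hqq] at hq hχ h4 h4'
      rw [← hqq]
      have hqQ : (q : ℚ) ≠ 0 := by exact_mod_cast hq.ne'
      obtain ⟨S, hS⟩ : ∃ S : ℚ[X], S = Q'.comp (C (q : ℚ) * X) := ⟨_, rfl⟩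
      have hS0 : S ≠ 0 := by
        rw [hS]
        intro h0
        rcases comp_eq_zero_iff.1 h0 with h | ⟨-, h⟩
        · exact hQ' h
        · have h6 := congrArg (fun p : ℚ[X] => p.coeff 1) h
          simp only [coeff_C_mul, coeff_X_one, mul_one, coeff_C_of_ne_zero one_ne_zero] at h6
          exact hqQ h6
      have hSz : ∀ z : ℂ, aeval z S = 0 → ‖z‖ = (q : ℝ) ^ ((m : ℝ) / 2) := by
        intro z hz
        rw [hS] at hz
        exact scale_zero hq h4' z hz
      -- the action of `S` on `V(1)`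
      have hST : ∀ x : V, aeval (chi l Φ • V.ρ Φ) (S.map (algebraMap ℚ ℚ_[l])) x =
          aeval (V.ρ Φ) (Q'.map (algebraMap ℚ ℚ_[l])) x := by
        intro x
        have hq0 : (q : ℚ_[l]) ≠ 0 := by exact_mod_cast hq.ne'
        have h7 : (algebraMap ℚ ℚ_[l]) (q : ℚ) = (q : ℚ_[l]) := map_natCast _ _
        have h8 : ((q : ℚ_[l]) • LinearMap.id * (q : ℚ_[l])⁻¹ • V.ρ Φ : Module.End ℚ_[l] V) =
            V.ρ Φ := by
          refine LinearMap.ext fun y => ?_
          change (q : ℚ_[l]) • ((q : ℚ_[l])⁻¹ • V.ρ Φ y) = V.ρ Φ y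
          rw [smul_smul, mul_inv_cancel₀ hq0, one_smul]
        rw [hS, Polynomial.map_comp, Polynomial.map_mul, map_C, map_X, aeval_comp, map_mul, aeval_C,
          aeval_X, h7, hχ, Module.algebraMap_end_eq_smul_id, h8]
      have hstU : ∀ (k : ℤ) (R : ℚ_[l][X]) (x : V × V), x ∈ U k →
          (aeval ((ExtV V a).ρ Φ) R x : V × V) ∈ U k := fun k R x hx =>
        aeval_mem (X := ExtV V a) (W := U k) (g := Φ) (fun y hy => hU k Φ y hy) R hx
      refine ⟨Q * S, mul_ne_zero hQ hS0, fun z hz => ?_, fun x hx => ?_⟩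
      · rw [map_mul, mul_eq_zero] at hz
        exact hz.elim (h4 z) (hSz z)
      · let x' : V × V := x
        have hx' : x'.1 ∈ W (m + 2) ∧ x'.2 ∈ W m := hx
        have hsplit : x' = (x'.1, (0 : V)) + ((0 : V), x'.2) :=
          Prod.ext (add_zero _).symm (zero_add _).symm
        change (aeval ((ExtV V a).ρ Φ) ((Q * S).map (algebraMap ℚ ℚ_[l])) x' : V × V) ∈ U (m - 1)
        have hadd : ∀ R : ℚ_[l][X], (aeval ((ExtV V a).ρ Φ) R x' : V × V) =
            (aeval ((ExtV V a).ρ Φ) R ((x'.1, (0 : V)) : V × V) : V × V) +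
              (aeval ((ExtV V a).ρ Φ) R (((0 : V), x'.2) : V × V) : V × V) := fun R => by
          conv_lhs => rw [hsplit]
          exact map_add (aeval ((ExtV V a).ρ Φ) R) _ _
        rw [hadd]
        refine Submodule.add_mem _ ?_ ?_
        · rw [Polynomial.map_mul, map_mul, Module.End.mul_apply]
          refine hstU _ _ _ ?_
          rw [aeval_inl, hST]
          refine ⟨?_, Submodule.zero_mem _⟩
          change _ ∈ W (m - 1 + 2)
          rw [em]
          exact h5' _ hx'.1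
        · rw [mul_comm Q S, Polynomial.map_mul, map_mul, Module.End.mul_apply]
          refine hstU _ _ _ ⟨?_, ?_⟩
          · -- the first component
            let U' : Submodule ℚ_[l] (V × V) := (W m).prod (W m)
            have hU' : ∀ y ∈ U', ((ExtV V a).ρ Φ y : V × V) ∈ U' := fun y hy =>
              ⟨Submodule.add_mem _ (Submodule.smul_mem _ _ (hW _ Φ _ hy.1))
                (Submodule.smul_mem _ _ (hW _ Φ _ hy.2)), hW _ Φ _ hy.2⟩
            have h8 := aeval_mem (X := ExtV V a) (W := U') (g := Φ) hU'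
              (Q.map (algebraMap ℚ ℚ_[l])) (x := (((0 : V), x'.2) : V × V))
              ⟨Submodule.zero_mem _, hx'.2⟩
            exact hm (by omega) h8.1
          · rw [aeval_snd]
            exact h5 _ hx'.2

theorem mixed_ExtV {V : Reps F l} (hV : IsMixed V.ρ) (a : Cyc F l) : IsMixed (ExtV V a).ρ := by
  obtain ⟨W, hW⟩ := hV
  exact ⟨_, weight_ExtV hW a⟩

end Pool.Agent.H68.CD
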