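import Mathlib
import Pool.Agent.H68.CD.Mix2

/-!
# The class of the extension of `V` by `V(1)` depends linearly on the cocycle
-/

set_option autoImplicit false
set_option linter.unusedSectionVars false
set_option linter.unusedVariables false
set_option maxHeartbeats 1000000

universe w

open NumberField CategoryTheory Polynomial Limits Abelian Pool.Agent.N491.CD

namespace Pool.Agent.H68.CD

variable {F : Type} [Field F] [NumberField F] {l : ℕ} [hl : Fact l.Prime]

theorem twist_apply (V : Reps F l) (n : ℤ) (g : AbsGal F) (x : V) :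
    (twist V n).ρ g x = chi l g ^ n • V.ρ g x := rfl

theorem twist_twist (V : Reps F l) (m n : ℤ) : twist (twist V m) n = twist V (m + n) := by
  unfold twist
  congr 1
  refine MonoidHom.ext fun g => LinearMap.ext fun x => ?_
  change chi l g ^ n • (chi l g ^ m • V.ρ g x) = chi l g ^ (m + n) • V.ρ g x
  rw [smul_smul, zpow_add₀ (chi_ne_zero g), mul_comm]

/-- the hypothesis for one representation -/
def IsGood (𝒜 : ObjectProperty (Reps F l)) (V : Reps F l) : Prop := ∀ a : Cyc F l, 𝒜 (ExtV V a)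

/-- the inclusion of `V(1)` -/
noncomputable def inclV (V : Reps F l) (a : Cyc F l) : twist V 1 ⟶ ExtV V a :=
  Rep.ofHom ⟨LinearMap.inl ℚ_[l] V V, fun g => LinearMap.ext fun x => by
    refine Prod.ext ?_ ?_
    · change chi l g ^ (1 : ℤ) • V.ρ g x = chi l g • V.ρ g x + a.1 g • V.ρ g 0
      rw [map_zero, smul_zero, add_zero, zpow_one]
    · change (0 : V) = V.ρ g 0
      rw [map_zero]⟩

/-- the projection to `V` -/
noncomputable def projV (V : Reps F l) (a : Cyc F l) : ExtV V a ⟶ V :=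
  Rep.ofHom ⟨LinearMap.snd ℚ_[l] V V, fun g => LinearMap.ext fun _ => rfl⟩

variable (𝒜 : ObjectProperty (Reps F l)) [IsAdm 𝒜]

theorem prop_ExtV {V : Reps F l} (hV : Mixed 𝒜 V) (hg : IsGood 𝒜 V) (a : Cyc F l) :
    Mixed 𝒜 (ExtV V a) :=
  ⟨ladic_ExtV hV.1 a, mixed_ExtV hV.2.1 a, hg a⟩

theorem prop_twist {V : Reps F l} (hV : Mixed 𝒜 V) (hg : IsGood 𝒜 V) : Mixed 𝒜 (twist V 1) := by
  have h : Mono (inclV V (0 : Cyc F l)) :=
    (Rep.mono_iff_injective _).2 fun x y h => congrArg Prod.fst h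
  exact (Mixed 𝒜).prop_of_mono (inclV V (0 : Cyc F l)) (prop_ExtV 𝒜 hV hg 0)

variable (V : MCat 𝒜) (hg : IsGood 𝒜 V.obj)

/-- `V(1)` as an object -/
noncomputable def tw : MCat 𝒜 := ⟨twist V.obj 1, prop_twist 𝒜 V.property hg⟩

/-- the extension as an object -/
noncomputable def EV (a : Cyc F l) : MCat 𝒜 := ⟨ExtV V.obj a, prop_ExtV 𝒜 V.property hg a⟩

noncomputable def incV (a : Cyc F l) : tw 𝒜 V hg ⟶ EV 𝒜 V hg a :=
  ObjectProperty.homMk (inclV V.obj a)

noncomputable def proV (a : Cyc F l) : EV 𝒜 V hg a ⟶ V :=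
  ObjectProperty.homMk (projV V.obj a)

theorem incV_proV (a : Cyc F l) : incV 𝒜 V hg a ≫ proV 𝒜 V hg a = 0 := by
  apply ObjectProperty.hom_ext
  apply Rep.hom_ext
  ext x
  rfl

theorem shortExact_V (a : Cyc F l) : (ShortComplex.mk (incV 𝒜 V hg a) (proV 𝒜 V hg a)
    (incV_proV 𝒜 V hg a)).ShortExact := by
  refine shortExact_of ?_ ?_ ?_
  · intro x y h
    exact congrArg Prod.fst h
  · intro x
    exact ⟨((0 : V.obj), x), rfl⟩
  · intro b hb
    have hb' : (b : V.obj × V.obj).2 = 0 := hb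
    exact ⟨(b : V.obj × V.obj).1, Prod.ext rfl hb'.symm⟩

/-- the class of the extension of `V` by `V(1)` given by a cocycle -/
noncomputable def clsV [HasExt.{w} (MCat 𝒜)] (a : Cyc F l) : Ext.{w} V (tw 𝒜 V hg) 1 :=
  (shortExact_V 𝒜 V hg a).extClass

/-! ### multiples -/

section smul

variable (a : Cyc F l) (r : ℚ_[l])

/-- the morphism of the extensions -/
noncomputable def mulHomV : EV 𝒜 V hg a ⟶ EV 𝒜 V hg (r • a) :=
  ObjectProperty.homMk (Rep.ofHom ⟨LinearMap.prod (r • LinearMap.fst ℚ_[l] V.obj V.obj)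
    (LinearMap.snd ℚ_[l] V.obj V.obj), fun g => LinearMap.ext fun x => by
    refine Prod.ext ?_ ?_
    · change r • (chi l g • V.obj.ρ g x.1 + a.1 g • V.obj.ρ g x.2) =
        chi l g • V.obj.ρ g (r • x.1) + (r * a.1 g) • V.obj.ρ g x.2
      rw [map_smul]
      module
    · rfl⟩)

theorem clsV_smul [HasExt.{w} (MCat 𝒜)] : clsV.{w} 𝒜 V hg (r • a) = r • clsV.{w} 𝒜 V hg a := by
  rw [Ext.smul_eq_comp_mk₀]
  have h := ShortComplex.ShortExact.extClass_naturality.{w}
    (shortExact_V 𝒜 V hg a) (shortExact_V 𝒜 V hg (r • a))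
    { τ₁ := r • 𝟙 (tw 𝒜 V hg)
      τ₂ := mulHomV 𝒜 V hg a r
      τ₃ := 𝟙 V
      comm₁₂ := by
        apply ObjectProperty.hom_ext
        apply Rep.hom_ext
        ext x
        refine Prod.ext ?_ ?_
        · rfl
        · rfl
      comm₂₃ := by
        apply ObjectProperty.hom_ext
        apply Rep.hom_ext
        ext x
        rfl }
  exact (h.trans (Ext.mk₀_id_comp _)).symm

end smul

/-! ### sums -/

section add

/-- the direct sum of two copies of `V(1)` -/
noncomputable def TwoRep (V : Reps F l) : Reps F l := Rep.of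
  { toFun := fun g => (chi l g) • LinearMap.prodMap (V.ρ g) (V.ρ g)
    map_one' := by
      rw [chi_one, one_smul, map_one]
      rfl
    map_mul' := fun g h => by
      refine LinearMap.ext fun x => ?_
      change chi l (g * h) • (V.ρ (g * h) x.1, V.ρ (g * h) x.2) =
        chi l g • ((V.ρ g (chi l h • V.ρ h x.1), V.ρ g (chi l h • V.ρ h x.2)) : V × V)
      rw [chi_mul, map_mul, map_smul, map_smul, ← Prod.smul_mk, mul_smul]
      rfl : Representation ℚ_[l] (AbsGal F) (V × V) }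

/-- the linear combinations of the projections to `V(1)` -/
noncomputable def toTw (V : Reps F l) (r s : ℚ_[l]) : TwoRep V ⟶ twist V 1 :=
  Rep.ofHom ⟨r • LinearMap.fst ℚ_[l] V V + s • LinearMap.snd ℚ_[l] V V,
    fun g => LinearMap.ext fun x => by
    change r • (chi l g • V.ρ g x.1) + s • (chi l g • V.ρ g x.2) =
      chi l g ^ (1 : ℤ) • V.ρ g (r • x.1 + s • x.2)
    rw [zpow_one, map_add, map_smul, map_smul]
    module⟩

/-- the extension of `V` by the direct sum of two copies of `V(1)` -/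
noncomputable def ThreeRep (V : Reps F l) (a b : Cyc F l) : Reps F l := Rep.of
  { toFun := fun g => LinearMap.prod
      (LinearMap.prod
        (chi l g • (V.ρ g).comp ((LinearMap.fst ℚ_[l] V V).comp (LinearMap.fst ℚ_[l] (V × V) V)) +
          a.1 g • (V.ρ g).comp (LinearMap.snd ℚ_[l] (V × V) V))
        (chi l g • (V.ρ g).comp ((LinearMap.snd ℚ_[l] V V).comp (LinearMap.fst ℚ_[l] (V × V) V)) +
          b.1 g • (V.ρ g).comp (LinearMap.snd ℚ_[l] (V × V) V)))
      ((V.ρ g).comp (LinearMap.snd ℚ_[l] (V × V) V))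
    map_one' := by
      refine LinearMap.ext fun x => ?_
      rw [chi_one, (coc a).one, (coc b).one, map_one]
      refine Prod.ext (Prod.ext ?_ ?_) ?_
      · change (1 : ℚ_[l]) • x.1.1 + (0 : ℚ_[l]) • x.2 = x.1.1
        module
      · change (1 : ℚ_[l]) • x.1.2 + (0 : ℚ_[l]) • x.2 = x.1.2
        module
      · rfl
    map_mul' := fun g h => by
      refine LinearMap.ext fun x => ?_
      refine Prod.ext (Prod.ext ?_ ?_) ?_
      · change chi l (g * h) • V.ρ (g * h) x.1.1 + a.1 (g * h) • V.ρ (g * h) x.2 =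
          chi l g • V.ρ g (chi l h • V.ρ h x.1.1 + a.1 h • V.ρ h x.2) + a.1 g • V.ρ g (V.ρ h x.2)
        rw [chi_mul, (coc a).mul, map_mul, map_add, map_smul, map_smul]
        change (chi l g * chi l h) • V.ρ g (V.ρ h x.1.1) +
          (a.1 g + chi l g * a.1 h) • V.ρ g (V.ρ h x.2) = _
        module
      · change chi l (g * h) • V.ρ (g * h) x.1.2 + b.1 (g * h) • V.ρ (g * h) x.2 =
          chi l g • V.ρ g (chi l h • V.ρ h x.1.2 + b.1 h • V.ρ h x.2) + b.1 g • V.ρ g (V.ρ h x.2)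
        rw [chi_mul, (coc b).mul, map_mul, map_add, map_smul, map_smul]
        change (chi l g * chi l h) • V.ρ g (V.ρ h x.1.2) +
          (b.1 g + chi l g * b.1 h) • V.ρ g (V.ρ h x.2) = _
        module
      · change V.ρ (g * h) x.2 = V.ρ g (V.ρ h x.2)
        rw [map_mul]
        rfl : Representation ℚ_[l] (AbsGal F) ((V × V) × V) }

/-- the morphisms from this extension to the extensions by `V(1)` -/
noncomputable def toExtV (V : Reps F l) (a b : Cyc F l) (r s : ℚ_[l]) (c : Cyc F l)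
    (hc : ∀ g, c.1 g = r * a.1 g + s * b.1 g) : ThreeRep V a b ⟶ ExtV V c :=
  Rep.ofHom ⟨LinearMap.prodMap (r • LinearMap.fst ℚ_[l] V V + s • LinearMap.snd ℚ_[l] V V)
      LinearMap.id, fun g => LinearMap.ext fun x => by
    refine Prod.ext ?_ ?_
    · change r • (chi l g • V.ρ g x.1.1 + a.1 g • V.ρ g x.2) +
        s • (chi l g • V.ρ g x.1.2 + b.1 g • V.ρ g x.2) =
        chi l g • V.ρ g (r • x.1.1 + s • x.1.2) + c.1 g • V.ρ g x.2
      rw [hc, map_add, map_smul, map_smul]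
      module
    · rfl⟩

variable (a b : Cyc F l)

include hg in
theorem prop_TwoRep : Mixed 𝒜 (TwoRep V.obj) :=
  prop_of_jointInj 𝒜 (p := toTw V.obj 1 0) (q := toTw V.obj 0 1) (fun z h1 h2 => by
      have h1' : (1 : ℚ_[l]) • (z : V.obj × V.obj).1 + (0 : ℚ_[l]) • (z : V.obj × V.obj).2 = 0 := h1
      have h2' : (0 : ℚ_[l]) • (z : V.obj × V.obj).1 + (1 : ℚ_[l]) • (z : V.obj × V.obj).2 = 0 := h2
      rw [one_smul, zero_smul, add_zero] at h1'
      rw [one_smul, zero_smul, zero_add] at h2'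
      exact Prod.ext h1' h2')
    (prop_twist 𝒜 V.property hg) (prop_twist 𝒜 V.property hg)

include hg in
theorem prop_ThreeRep : Mixed 𝒜 (ThreeRep V.obj a b) :=
  prop_of_jointInj 𝒜 (p := toExtV V.obj a b 1 0 a fun g => by ring)
    (q := toExtV V.obj a b 0 1 b fun g => by ring) (fun z h1 h2 => by
      let z' : (V.obj × V.obj) × V.obj := z
      have h1' : (1 : ℚ_[l]) • z'.1.1 + (0 : ℚ_[l]) • z'.1.2 = 0 := congrArg Prod.fst h1
      have h2' : (0 : ℚ_[l]) • z'.1.1 + (1 : ℚ_[l]) • z'.1.2 = 0 := congrArg Prod.fst h2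
      have h3' : z'.2 = 0 := congrArg Prod.snd h1
      rw [one_smul, zero_smul, add_zero] at h1'
      rw [one_smul, zero_smul, zero_add] at h2'
      exact Prod.ext (Prod.ext h1' h2') h3')
    (prop_ExtV 𝒜 V.property hg a) (prop_ExtV 𝒜 V.property hg b)

/-- the direct sum of two copies of `V(1)` as an object -/
noncomputable def TwoV : MCat 𝒜 := ⟨TwoRep V.obj, prop_TwoRep 𝒜 V hg⟩

/-- the extension as an object -/
noncomputable def ThreeV : MCat 𝒜 := ⟨ThreeRep V.obj a b, prop_ThreeRep 𝒜 V hg a b⟩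

noncomputable def incThreeV : TwoV 𝒜 V hg ⟶ ThreeV 𝒜 V hg a b :=
  ObjectProperty.homMk (Rep.ofHom ⟨LinearMap.inl ℚ_[l] (V.obj × V.obj) V.obj,
    fun g => LinearMap.ext fun x => by
    refine Prod.ext (Prod.ext ?_ ?_) ?_
    · change chi l g • V.obj.ρ g x.1 = chi l g • V.obj.ρ g x.1 + a.1 g • V.obj.ρ g 0
      rw [map_zero, smul_zero, add_zero]
    · change chi l g • V.obj.ρ g x.2 = chi l g • V.obj.ρ g x.2 + b.1 g • V.obj.ρ g 0
      rw [map_zero, smul_zero, add_zero]
    · change (0 : V.obj) = V.obj.ρ g 0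
      rw [map_zero]⟩)

noncomputable def proThreeV : ThreeV 𝒜 V hg a b ⟶ V :=
  ObjectProperty.homMk (Rep.ofHom ⟨LinearMap.snd ℚ_[l] (V.obj × V.obj) V.obj,
    fun g => LinearMap.ext fun _ => rfl⟩)

theorem incThreeV_proThreeV : incThreeV 𝒜 V hg a b ≫ proThreeV 𝒜 V hg a b = 0 := by
  apply ObjectProperty.hom_ext
  apply Rep.hom_ext
  ext x
  rfl

theorem shortExact_threeV : (ShortComplex.mk (incThreeV 𝒜 V hg a b) (proThreeV 𝒜 V hg a b)
    (incThreeV_proThreeV 𝒜 V hg a b)).ShortExact := by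
  refine shortExact_of ?_ ?_ ?_
  · intro x y h
    exact congrArg Prod.fst h
  · intro x
    exact ⟨(((0 : V.obj), (0 : V.obj)), x), rfl⟩
  · intro z hz
    have hz' : (z : (V.obj × V.obj) × V.obj).2 = 0 := hz
    exact ⟨(z : (V.obj × V.obj) × V.obj).1, Prod.ext rfl hz'.symm⟩

theorem clsV_three [HasExt.{w} (MCat 𝒜)] (r s : ℚ_[l]) (c : Cyc F l)
    (hc : ∀ g, c.1 g = r * a.1 g + s * b.1 g) : clsV.{w} 𝒜 V hg c =
      (shortExact_threeV 𝒜 V hg a b).extClass.comp
        (Ext.mk₀ (ObjectProperty.homMk (toTw V.obj r s) : TwoV 𝒜 V hg ⟶ tw 𝒜 V hg))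
        (add_zero 1) := by
  have h := ShortComplex.ShortExact.extClass_naturality.{w}
    (shortExact_threeV 𝒜 V hg a b) (shortExact_V 𝒜 V hg c)
    { τ₁ := ObjectProperty.homMk (toTw V.obj r s)
      τ₂ := ObjectProperty.homMk (toExtV V.obj a b r s c hc)
      τ₃ := 𝟙 V
      comm₁₂ := by
        apply ObjectProperty.hom_ext
        apply Rep.hom_ext
        ext x
        rfl
      comm₂₃ := by
        apply ObjectProperty.hom_ext
        apply Rep.hom_ext
        ext x
        rfl }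
  exact (h.trans (Ext.mk₀_id_comp _)).symm

theorem clsV_add [HasExt.{w} (MCat 𝒜)] :
    clsV.{w} 𝒜 V hg (a + b) = clsV.{w} 𝒜 V hg a + clsV.{w} 𝒜 V hg b := by
  rw [clsV_three 𝒜 V hg a b 1 1 (a + b) (fun g => by
      change a.1 g + b.1 g = _
      ring),
    clsV_three 𝒜 V hg a b 1 0 a (fun g => by ring),
    clsV_three 𝒜 V hg a b 0 1 b (fun g => by ring), ← Ext.comp_add, ← Ext.mk₀_add]
  congr 2
  apply ObjectProperty.hom_ext
  apply Rep.hom_ext
  ext x
  let x' : V.obj × V.obj := x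
  change (1 : ℚ_[l]) • x'.1 + (1 : ℚ_[l]) • x'.2 = ((1 : ℚ_[l]) • x'.1 + (0 : ℚ_[l]) • x'.2) +
    ((0 : ℚ_[l]) • x'.1 + (1 : ℚ_[l]) • x'.2)
  module

end add

/-- the extension class as a linear map -/
noncomputable def clsVLin [HasExt.{w} (MCat 𝒜)] :
    Cyc F l →ₗ[ℚ_[l]] Ext.{w} V (tw 𝒜 V hg) 1 where
  toFun a := clsV 𝒜 V hg a
  map_add' a b := clsV_add 𝒜 V hg a b
  map_smul' r a := clsV_smul 𝒜 V hg a r

end Pool.Agent.H68.CD
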