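import Mathlib
import Pool.Agent.H68.CD.LinV
import Pool.Agent.H68.CD.Core

/-!
# A representation with the graded pieces `V`, `V(1)`, `V(2)` gives a cochain, by taking traces
-/

set_option autoImplicit false
set_option linter.unusedSectionVars false
set_option linter.unusedVariables false
set_option maxHeartbeats 1000000

universe w

open NumberField CategoryTheory Polynomial Limits Abelian Pool.Agent.N491.CD

namespace Pool.Agent.H68.CD

variable {F : Type} [Field F] [NumberField F] {l : ℕ} [hl : Fact l.Prime]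

theorem rho_inv (V : Reps F l) (g : AbsGal F) (x : V) : V.ρ g⁻¹ (V.ρ g x) = x := by
  have h : V.ρ (g⁻¹ * g) x = V.ρ g⁻¹ (V.ρ g x) := by
    rw [map_mul]
    rfl
  rw [← h, inv_mul_cancel, map_one]
  rfl

theorem rho_inv' (V : Reps F l) (g : AbsGal F) (x : V) : V.ρ g (V.ρ g⁻¹ x) = x := by
  have h : V.ρ (g * g⁻¹) x = V.ρ g (V.ρ g⁻¹ x) := by
    rw [map_mul]
    rfl
  rw [← h, mul_inv_cancel, map_one]
  rfl

/-- From linear maps `e1`, `e2`, `e3` from `V` to a representation `E` on which the Galois group acts by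
triangular matrices, we obtain a cochain. -/
theorem exists_cochainV (V E : Reps F l) (hV : IsLadic V.ρ) (hE : IsLadic E.ρ) [Nontrivial V]
    {a : AbsGal F → ℚ_[l]} (ha : IsCoc a) (e1 e2 e3 : V →ₗ[ℚ_[l]] E)
    (he1 : Function.Injective e1)
    (h1 : ∀ g v, E.ρ g (e1 v) = chi l g ^ 2 • e1 (V.ρ g v))
    (h2 : ∀ g v, E.ρ g (e2 v) = chi l g • e2 (V.ρ g v) + (chi l g * (be l g : ℚ_[l])) • e1 (V.ρ g v))
    (h3 : ∀ g v, ∃ c : V, E.ρ g (e3 v) = e3 (V.ρ g v) + a g • e2 (V.ρ g v) + e1 c) :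
    ∃ C : AbsGal F → ℚ_[l], Continuous C ∧ IsCo a C := by
  have := hV.finite
  obtain ⟨r, hr⟩ := e1.exists_leftInverse_of_injective (LinearMap.ker_eq_bot.2 he1)
  have hr' : ∀ v, r (e1 v) = v := fun v => LinearMap.congr_fun hr v
  -- the matrix coefficient
  let T : AbsGal F → V →ₗ[ℚ_[l]] V := fun g =>
    r ∘ₗ ((E.ρ g) ∘ₗ e3 - e3 ∘ₗ (V.ρ g) - a g • (e2 ∘ₗ (V.ρ g)))
  have hT : ∀ g v, E.ρ g (e3 v) = e3 (V.ρ g v) + a g • e2 (V.ρ g v) + e1 (T g v) := by
    intro g v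
    obtain ⟨c, hc⟩ := h3 g v
    have h4 : T g v = c := by
      change r (E.ρ g (e3 v) - e3 (V.ρ g v) - a g • e2 (V.ρ g v)) = c
      rw [hc, ← hr' c]
      congr 1
      rw [hr']
      abel
    rw [h4, hc]
  have hmul : ∀ g h v, V.ρ (g * h) v = V.ρ g (V.ρ h v) := fun g h v => by
    rw [map_mul]
    rfl
  have hTmul : ∀ g h v, T (g * h) v = T g (V.ρ h v) +
      (a h * (chi l g * (be l g : ℚ_[l]))) • V.ρ g (V.ρ h v) + chi l g ^ 2 • V.ρ g (T h v) := by
    intro g h v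
    have h5 : E.ρ (g * h) (e3 v) = E.ρ g (E.ρ h (e3 v)) := by
      rw [map_mul]
      rfl
    rw [hT, hT h v, map_add, map_add, map_smul, hT g, h2, h1, ha.mul, hmul] at h5
    apply he1
    have h6 : e1 (T (g * h) v) = (e3 (V.ρ g (V.ρ h v)) + (a g + chi l g * a h) • e2 (V.ρ g (V.ρ h v)) +
        e1 (T (g * h) v)) - (e3 (V.ρ g (V.ρ h v)) + (a g + chi l g * a h) • e2 (V.ρ g (V.ρ h v))) := by
      abel
    rw [h6, h5, map_add, map_add, map_smul, map_smul]
    module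
  -- the normalized matrix coefficient
  let D : AbsGal F → V →ₗ[ℚ_[l]] V := fun g => (T g) ∘ₗ (V.ρ g⁻¹)
  have hD : ∀ g h, D (g * h) = D g + (a h * (chi l g * (be l g : ℚ_[l]))) • LinearMap.id +
      chi l g ^ 2 • ((V.ρ g) ∘ₗ (D h) ∘ₗ (V.ρ g⁻¹)) := by
    intro g h
    refine LinearMap.ext fun v => ?_
    change T (g * h) (V.ρ (g * h)⁻¹ v) = T g (V.ρ g⁻¹ v) + (a h * (chi l g * (be l g : ℚ_[l]))) • v +
      chi l g ^ 2 • V.ρ g (T h (V.ρ h⁻¹ (V.ρ g⁻¹ v)))
    rw [hTmul, mul_inv_rev, hmul, rho_inv' V h, rho_inv' V g]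
  have htr : ∀ g h, LinearMap.trace ℚ_[l] V (D (g * h)) = LinearMap.trace ℚ_[l] V (D g) +
      (a h * (chi l g * (be l g : ℚ_[l]))) * (Module.finrank ℚ_[l] V : ℚ_[l]) +
      chi l g ^ 2 * LinearMap.trace ℚ_[l] V (D h) := by
    intro g h
    rw [hD, map_add, map_add, map_smul, map_smul, smul_eq_mul, smul_eq_mul]
    have h7 : LinearMap.trace ℚ_[l] V LinearMap.id = (Module.finrank ℚ_[l] V : ℚ_[l]) :=
      LinearMap.trace_one ℚ_[l] V
    have h8 : LinearMap.trace ℚ_[l] V ((V.ρ g) ∘ₗ (D h) ∘ₗ (V.ρ g⁻¹)) =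
        LinearMap.trace ℚ_[l] V (D h) := by
      rw [LinearMap.trace_comp_comm', LinearMap.comp_assoc]
      have h9 : (V.ρ g⁻¹) ∘ₗ (V.ρ g) = LinearMap.id := LinearMap.ext fun v => rho_inv V g v
      rw [h9, LinearMap.comp_id]
    rw [h7, h8]
  have hn : (Module.finrank ℚ_[l] V : ℚ_[l]) ≠ 0 := by
    rw [Nat.cast_ne_zero]
    exact (Module.finrank_pos (R := ℚ_[l]) (M := V)).ne'
  -- continuity
  let b := Module.finBasis ℚ_[l] V
  have hTc : ∀ (φ : Module.Dual ℚ_[l] V) (v : V), Continuous fun g => φ (T g v) := by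
    intro φ v
    have h10 : (fun g => φ (T g v)) = fun g => (φ ∘ₗ r) (E.ρ g (e3 v)) - (φ ∘ₗ r ∘ₗ e3) (V.ρ g v) -
        a g * (φ ∘ₗ r ∘ₗ e2) (V.ρ g v) := by
      funext g
      change φ (r (E.ρ g (e3 v) - e3 (V.ρ g v) - a g • e2 (V.ρ g v))) = _
      rw [map_sub, map_sub, map_smul, map_sub, map_sub, map_smul]
      rfl
    rw [h10]
    exact ((hE.continuous _ _).sub (hV.continuous _ _)).sub (ha.cont.mul (hV.continuous _ _))
  have hDc : Continuous fun g => LinearMap.trace ℚ_[l] V (D g) := by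
    have h11 : (fun g => LinearMap.trace ℚ_[l] V (D g)) = fun g =>
        ∑ i, ∑ j, b.coord j (V.ρ g⁻¹ (b i)) * b.coord i (T g (b j)) := by
      funext g
      rw [LinearMap.trace_eq_matrix_trace ℚ_[l] b, Matrix.trace]
      refine Finset.sum_congr rfl fun i _ => ?_
      rw [Matrix.diag_apply, LinearMap.toMatrix_apply]
      change b.coord i (T g (V.ρ g⁻¹ (b i))) = _
      conv_lhs => rw [← b.sum_repr (V.ρ g⁻¹ (b i))]
      rw [map_sum, map_sum]
      refine Finset.sum_congr rfl fun j _ => ?_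
      rw [map_smul, map_smul, smul_eq_mul]
      rfl
    rw [h11]
    refine continuous_finsetSum _ fun i _ => continuous_finsetSum _ fun j _ => ?_
    exact ((hV.continuous (b i) (b.coord j)).comp continuous_inv).mul (hTc (b.coord i) (b j))
  refine ⟨fun g => LinearMap.trace ℚ_[l] V (D g) * (Module.finrank ℚ_[l] V : ℚ_[l])⁻¹,
    hDc.mul continuous_const, fun g h => ?_⟩
  change LinearMap.trace ℚ_[l] V (D (g * h)) * (Module.finrank ℚ_[l] V : ℚ_[l])⁻¹ = _
  rw [htr]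
  field_simp

end Pool.Agent.H68.CD
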