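import Mathlib
import Pool.Agent.H68.CD.TrV

/-!
# `Ext ^ 2 (V, V(2))` has dimension at least the cardinality of the continuum
-/

set_option autoImplicit false
set_option linter.unusedSectionVars false
set_option linter.unusedVariables false
set_option maxHeartbeats 1000000

universe w

open NumberField CategoryTheory Polynomial Limits Abelian Pool.Agent.N491.CD

namespace Pool.Agent.H68.CD

variable {F : Type} [Field F] [NumberField F] {l : ℕ} [hl : Fact l.Prime]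
variable (F l) in
/-- the cocycle of a path -/
noncomputable def alC (x : ℕ → Bool) : Cyc F l :=
  ⟨fun g => (al l x g : ℚ_[l]), ⟨fun g h => by
    change ((al l x (g * h) : ℤ_[l]) : ℚ_[l]) = (al l x g : ℚ_[l]) + chi l g * (al l x h : ℚ_[l])
    rw [al_mul, ← coe_chiZ, PadicInt.coe_add, PadicInt.coe_mul],
    continuous_subtype_val.comp (continuous_al x)⟩, by
    intro ι
    obtain ⟨c, hc⟩ := al_coboundary x ι
    refine ⟨c, fun σ hσ => ?_⟩
    obtain ⟨g, hg⟩ := hσ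
    change ((al l x σ : ℤ_[l]) : ℚ_[l]) = _
    rw [hc g σ hg, PadicInt.coe_mul, PadicInt.coe_sub, PadicInt.coe_one, coe_chiZ]⟩

variable (F l) in
/-- the second cocycle -/
noncomputable def beC : Cyc F l :=
  ⟨fun g => (be l g : ℚ_[l]), ⟨fun g h => by
    change ((be l (g * h) : ℤ_[l]) : ℚ_[l]) = (be l g : ℚ_[l]) + chi l g * (be l h : ℚ_[l])
    rw [be_mul, ← coe_chiZ, PadicInt.coe_add, PadicInt.coe_mul],
    continuous_subtype_val.comp continuous_be⟩, by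
    intro ι
    obtain ⟨c, hc⟩ := be_coboundary (F := F) ι
    refine ⟨c, fun σ hσ => ?_⟩
    obtain ⟨g, hg⟩ := hσ
    change ((be l σ : ℤ_[l]) : ℚ_[l]) = _
    rw [hc g σ hg, PadicInt.coe_mul, PadicInt.coe_sub, PadicInt.coe_one, coe_chiZ]⟩

variable (𝒜 : ObjectProperty (Reps F l)) [IsAdm 𝒜] (V : MCat 𝒜) (hg : IsGood 𝒜 V.obj)
  (hg1 : IsGood 𝒜 (twist V.obj 1))

/-- `V(1)(1)` -/
noncomputable def tw2 : MCat 𝒜 := tw 𝒜 (tw 𝒜 V hg) hg1

theorem tw2_obj : (tw2 𝒜 V hg hg1).obj = twist V.obj 2 := twist_twist V.obj 1 1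

/-- If the product of the classes of the two extensions vanishes, there is a cochain. -/
theorem cochain_of_vanishingV [Nontrivial V.obj] [HasExt.{w} (MCat 𝒜)] (a : Cyc F l)
    (h : (clsV.{w} 𝒜 V hg a).comp (clsV.{w} 𝒜 (tw 𝒜 V hg) hg1 (beC F l))
      (rfl : 1 + 1 = 2) = 0) :
    ∃ C : AbsGal F → ℚ_[l], Continuous C ∧ IsCo a.1 C := by
  obtain ⟨B, i, q, wq, ψ, hs, h1, h2⟩ := exists_blended
    (shortExact_V 𝒜 V hg a)
    (shortExact_V 𝒜 (tw 𝒜 V hg) hg1 (beC F l)) h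
  have hψi : ∀ x : (tw 𝒜 (tw 𝒜 V hg) hg1).obj,
      ψ.hom.hom ((incV 𝒜 (tw 𝒜 V hg) hg1 (beC F l)).hom.hom x) = i.hom.hom x := fun x => by
    rw [← h1]
    rfl
  have hqψ : ∀ x : (EV 𝒜 (tw 𝒜 V hg) hg1 (beC F l)).obj,
      q.hom.hom (ψ.hom.hom x) = (incV 𝒜 V hg a).hom.hom
        ((proV 𝒜 (tw 𝒜 V hg) hg1 (beC F l)).hom.hom x) := fun x => by
    have h3 : (ψ ≫ q).hom.hom x = (proV 𝒜 (tw 𝒜 V hg) hg1 (beC F l) ≫
      incV 𝒜 V hg a).hom.hom x := by rw [h2]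
    exact h3
  have hi := ShortExact_inj hs
  have hsur := ShortExact_surj hs
  -- the linear maps
  let Ψ : (V.obj × V.obj) →ₗ[ℚ_[l]] B.obj := ψ.hom.hom.toLinearMap
  let q' : B.obj →ₗ[ℚ_[l]] (V.obj × V.obj) := q.hom.hom.toLinearMap
  have hq' : Function.Surjective q' := hsur
  obtain ⟨s, hs'⟩ := q'.exists_rightInverse_of_surjective (LinearMap.range_eq_top.2 hq')
  have hs'' : ∀ x, q' (s x) = x := fun x => LinearMap.congr_fun hs' x
  let e1 : V.obj →ₗ[ℚ_[l]] B.obj := Ψ ∘ₗ LinearMap.inl _ _ _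
  let e2 : V.obj →ₗ[ℚ_[l]] B.obj := Ψ ∘ₗ LinearMap.inr _ _ _
  let e3 : V.obj →ₗ[ℚ_[l]] B.obj := s ∘ₗ LinearMap.inr _ _ _
  have hΨ : ∀ g (x : V.obj × V.obj), B.obj.ρ g (Ψ x) =
      Ψ (chi l g • (chi l g ^ (1 : ℤ) • V.obj.ρ g x.1) +
        (be l g : ℚ_[l]) • (chi l g ^ (1 : ℤ) • V.obj.ρ g x.2),
        chi l g ^ (1 : ℤ) • V.obj.ρ g x.2) := fun g x =>
    (Rep.hom_comm_apply ψ.hom g x).symm
  have he1i : ∀ v : V.obj, e1 v = i.hom.hom v := fun v => hψi v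
  refine exists_cochainV V.obj B.obj V.property.1 B.property.1 (coc a) e1 e2 e3 ?_ ?_ ?_ ?_
  · intro x y hxy
    rw [he1i, he1i] at hxy
    exact hi hxy
  · intro g v
    change B.obj.ρ g (Ψ (v, (0 : V.obj))) = chi l g ^ 2 • Ψ (V.obj.ρ g v, (0 : V.obj))
    refine (hΨ g _).trans ?_
    have h9 : chi l g ^ 2 • Ψ (V.obj.ρ g v, (0 : V.obj)) =
        Ψ (chi l g ^ 2 • (V.obj.ρ g v, (0 : V.obj))) := (map_smul Ψ _ _).symm
    rw [h9]
    refine congrArg Ψ (Prod.ext ?_ ?_)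
    · change chi l g • (chi l g ^ (1 : ℤ) • V.obj.ρ g v) +
        (be l g : ℚ_[l]) • (chi l g ^ (1 : ℤ) • V.obj.ρ g 0) = chi l g ^ 2 • V.obj.ρ g v
      rw [map_zero, smul_zero, smul_zero, add_zero, zpow_one, smul_smul, sq]
    · change chi l g ^ (1 : ℤ) • V.obj.ρ g 0 = chi l g ^ 2 • (0 : V.obj)
      rw [map_zero, smul_zero, smul_zero]
  · intro g v
    change B.obj.ρ g (Ψ ((0 : V.obj), v)) = chi l g • Ψ ((0 : V.obj), V.obj.ρ g v) +
      (chi l g * (be l g : ℚ_[l])) • Ψ (V.obj.ρ g v, (0 : V.obj))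
    refine (hΨ g _).trans ?_
    have h9 : chi l g • Ψ ((0 : V.obj), V.obj.ρ g v) +
        (chi l g * (be l g : ℚ_[l])) • Ψ (V.obj.ρ g v, (0 : V.obj)) =
        Ψ (chi l g • ((0 : V.obj), V.obj.ρ g v) +
          (chi l g * (be l g : ℚ_[l])) • (V.obj.ρ g v, (0 : V.obj))) := by
      rw [map_add, map_smul, map_smul]
    rw [h9]
    refine congrArg Ψ (Prod.ext ?_ ?_)
    · change chi l g • (chi l g ^ (1 : ℤ) • V.obj.ρ g 0) +
        (be l g : ℚ_[l]) • (chi l g ^ (1 : ℤ) • V.obj.ρ g v) = chi l g • (0 : V.obj) +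
          (chi l g * (be l g : ℚ_[l])) • V.obj.ρ g v
      rw [map_zero, smul_zero, smul_zero, zero_add, zero_add, zpow_one, smul_smul, mul_comm]
    · change chi l g ^ (1 : ℤ) • V.obj.ρ g v = chi l g • V.obj.ρ g v +
        (chi l g * (be l g : ℚ_[l])) • (0 : V.obj)
      rw [smul_zero, add_zero, zpow_one]
  · intro g v
    have hq1 : q.hom.hom (B.obj.ρ g (e3 v) - e3 (V.obj.ρ g v) - a.1 g • e2 (V.obj.ρ g v)) = 0 := by
      have h5 : q.hom.hom (e3 v) = (((0 : V.obj), v) : V.obj × V.obj) := hs'' _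
      have h6 : q.hom.hom (e3 (V.obj.ρ g v)) = (((0 : V.obj), V.obj.ρ g v) : V.obj × V.obj) := hs'' _
      have h7 : q.hom.hom (e2 (V.obj.ρ g v)) = ((V.obj.ρ g v, (0 : V.obj)) : V.obj × V.obj) :=
        hqψ (((0 : V.obj), V.obj.ρ g v) : V.obj × V.obj)
      rw [map_sub, map_sub, map_smul, Rep.hom_comm_apply, h5, h6, h7]
      refine Prod.ext ?_ ?_
      · change chi l g • V.obj.ρ g 0 + a.1 g • V.obj.ρ g v - 0 - a.1 g • V.obj.ρ g v = 0
        rw [map_zero, smul_zero, zero_add, sub_zero, sub_self]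
      · change V.obj.ρ g v - V.obj.ρ g v - a.1 g • (0 : V.obj) = 0
        rw [smul_zero, sub_zero, sub_self]
    obtain ⟨c, hc⟩ := ShortExact_exact hs _ hq1
    refine ⟨c, ?_⟩
    have h8 : e1 c = B.obj.ρ g (e3 v) - e3 (V.obj.ρ g v) - a.1 g • e2 (V.obj.ρ g v) :=
      (he1i c).trans hc
    rw [h8]
    abel

/-- the product with the class of the second extension -/
noncomputable def prodMapV [HasExt.{w} (MCat 𝒜)] :
    Ext.{w} V (tw 𝒜 V hg) 1 →ₗ[ℚ_[l]] Ext.{w} V (tw2 𝒜 V hg hg1) 2 :=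
  (clsV.{w} 𝒜 (tw 𝒜 V hg) hg1 (beC F l)).postcompOfLinear ℚ_[l] V (rfl : 1 + 1 = 2)

theorem linearIndependent_productsV [Nontrivial V.obj] [HasExt.{w} (MCat 𝒜)] :
    LinearIndependent ℚ_[l] fun x : ℕ → Bool =>
      prodMapV.{w} 𝒜 V hg hg1 (clsVLin.{w} 𝒜 V hg (alC F l x)) := by
  rw [linearIndependent_iff']
  intro S c hS x0 hx0
  by_contra hc
  have h1 : prodMapV.{w} 𝒜 V hg hg1 (clsVLin.{w} 𝒜 V hg (∑ x ∈ S, c x • alC F l x)) = 0 := by
    rw [map_sum, map_sum, ← hS]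
    refine Finset.sum_congr rfl fun x _ => ?_
    rw [map_smul, map_smul]
  obtain ⟨C, hCc, hC⟩ := cochain_of_vanishingV 𝒜 V hg hg1 _ h1
  refine no_function hx0 hc (C := C) ?_ hCc
  intro g h
  rw [hC g h]
  congr 3
  rw [Submodule.coe_sum, Finset.sum_apply]
  rfl

open Cardinal in
theorem continuum_le_of_linearIndependent {M : Type w} [AddCommGroup M] [Module ℚ_[l] M]
    {v : (ℕ → Bool) → M} (hv : LinearIndependent ℚ_[l] v) : 𝔠 ≤ Module.rank ℚ_[l] M := by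
  have h := hv.cardinal_lift_le_rank
  have h1 : #(ℕ → Bool) = 𝔠 := by
    simp
  rw [h1] at h
  simpa using h

open Cardinal in
theorem rank_range [Nontrivial V.obj] [HasExt.{w} (MCat 𝒜)] :
    𝔠 ≤ Module.rank ℚ_[l] (LinearMap.range (prodMapV.{w} 𝒜 V hg hg1)) := by
  refine continuum_le_of_linearIndependent (v := fun x : ℕ → Bool =>
    (⟨prodMapV.{w} 𝒜 V hg hg1 (clsVLin.{w} 𝒜 V hg (alC F l x)), _, rfl⟩ :
      LinearMap.range (prodMapV.{w} 𝒜 V hg hg1))) ?_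
  exact LinearIndependent.of_comp (LinearMap.range (prodMapV.{w} 𝒜 V hg hg1)).subtype
    (linearIndependent_productsV 𝒜 V hg hg1)

include hg hg1 in
open Cardinal in
/-- the version for an object `Y` whose underlying representation is `V(2)` -/
theorem rank_V [Nontrivial V.obj] [HasExt.{w} (MCat 𝒜)] (Y : MCat 𝒜)
    (hY : Y.obj = twist V.obj 2) : ∃ (M : MCat 𝒜) (b : Ext.{w} M Y 1), M.obj = twist V.obj 1 ∧
      𝔠 ≤ Module.rank ℚ_[l] (LinearMap.range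
        (b.postcompOfLinear ℚ_[l] V (rfl : 1 + 1 = 2))) := by
  have h : Y = tw2 𝒜 V hg hg1 := by
    obtain ⟨Y, hY'⟩ := Y
    have h1 : Y = (tw2 𝒜 V hg hg1).obj := (show Y = _ from hY).trans (tw2_obj 𝒜 V hg hg1).symm
    subst h1
    rfl
  subst h
  exact ⟨tw 𝒜 V hg, _, rfl, rank_range 𝒜 V hg hg1⟩

theorem twist_zero (V : Reps F l) : twist V 0 = V := by
  have h : twist V 0 = Rep.of V.ρ := by
    unfold twist
    congr 1
    refine MonoidHom.ext fun g => LinearMap.ext fun x => ?_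
    change chi l g ^ (0 : ℤ) • V.ρ g x = V.ρ g x
    rw [zpow_zero, one_smul]
  exact h

end Pool.Agent.H68.CD
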