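import Mathlib
import Pool.Agent.H68.CD.Mix2

/-!
# Mixed representations with semisimple graded pieces
-/

set_option autoImplicit false
set_option linter.unusedSectionVars false
set_option linter.unusedVariables false
set_option maxHeartbeats 1000000

open NumberField CategoryTheory Polynomial Limits Pool.Agent.N491.CD

namespace Pool.Agent.H68.CD

variable {F : Type} [Field F] [NumberField F] {l : ℕ} [hl : Fact l.Prime]

/-- The quotient `W / W'` of two subrepresentations `W' ≤ W` is semisimple: every subrepresentation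
between `W'` and `W` has a complement between `W'` and `W`. -/
def SemisimpleGr {V : Type} [AddCommGroup V] [Module ℚ_[l] V]
    (ρ : Representation ℚ_[l] (AbsGal F) V) (W' W : Submodule ℚ_[l] V) : Prop :=
  ∀ U : Submodule ℚ_[l] V, (∀ g, ∀ x ∈ U, ρ g x ∈ U) → W' ≤ U → U ≤ W →
    ∃ U' : Submodule ℚ_[l] V, (∀ g, ∀ x ∈ U', ρ g x ∈ U') ∧ W' ≤ U' ∧ U' ≤ W ∧
      U ⊓ U' ≤ W' ∧ W ≤ U ⊔ U'

/-- The representation has a weight filtration with semisimple graded pieces. -/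
def HasSemisimpleWeights {V : Type} [AddCommGroup V] [Module ℚ_[l] V]
    (ρ : Representation ℚ_[l] (AbsGal F) V) : Prop :=
  ∃ W : ℤ → Submodule ℚ_[l] V, IsWeight ρ W ∧ ∀ m, SemisimpleGr ρ (W (m - 1)) (W m)

/-- the representations in the class `𝒜` which have a weight filtration with semisimple graded pieces -/
def Semi (𝒜 : ObjectProperty (Reps F l)) : ObjectProperty (Reps F l) :=
  fun V => HasSemisimpleWeights V.ρ ∧ 𝒜 V

theorem weight_jointInj {Z X Y : Reps F l} {p : Z ⟶ X} {q : Z ⟶ Y} (h : JointInj p q)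
    {W : ℤ → Submodule ℚ_[l] X} {W' : ℤ → Submodule ℚ_[l] Y}
    (hX : IsWeight X.ρ W) (hY : IsWeight Y.ρ W') :
    IsWeight Z.ρ fun m => (W m).comap p.hom.toLinearMap ⊓ (W' m).comap q.hom.toLinearMap := by
  obtain ⟨hW, hm, ⟨a, ha⟩, ⟨b, hb⟩, hp⟩ := hX
  obtain ⟨hW', hm', ⟨a', ha'⟩, ⟨b', hb'⟩, hp'⟩ := hY
  refine ⟨?_, ?_, ⟨min a a', ?_⟩, ⟨max b b', ?_⟩, ?_⟩
  · intro m g x hx
    refine ⟨?_, ?_⟩
    · change p.hom (Z.ρ g x) ∈ W m
      rw [Rep.hom_comm_apply]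
      exact hW m g _ hx.1
    · change q.hom (Z.ρ g x) ∈ W' m
      rw [Rep.hom_comm_apply]
      exact hW' m g _ hx.2
  · intro m n hmn x hx
    exact ⟨hm hmn hx.1, hm' hmn hx.2⟩
  · rw [eq_bot_iff]
    intro x hx
    have h1 : p.hom x ∈ W a := hm (min_le_left a a') hx.1
    have h2 : q.hom x ∈ W' a' := hm' (min_le_right a a') hx.2
    rw [ha, Submodule.mem_bot] at h1
    rw [ha', Submodule.mem_bot] at h2
    exact h x h1 h2
  · rw [eq_top_iff]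
    intro x _
    refine ⟨hm (le_max_left b b') ?_, hm' (le_max_right b b') ?_⟩
    · rw [hb]
      trivial
    · rw [hb']
      trivial
  · intro m
    obtain ⟨N, hN, h1⟩ := hp m
    obtain ⟨N', hN', h1'⟩ := hp' m
    refine ⟨N * N', mul_ne_zero hN hN', fun P hP hNP hlP => ?_⟩
    have hNP1 : (N : 𝓞 (AlgebraicClosure F)) ∉ P := fun h => hNP (by
      rw [Nat.cast_mul]
      exact P.mul_mem_right _ h)
    have hNP2 : (N' : 𝓞 (AlgebraicClosure F)) ∉ P := fun h => hNP (by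
      rw [Nat.cast_mul]
      exact P.mul_mem_left _ h)
    obtain ⟨h2, h3⟩ := h1 P hP hNP1 hlP
    obtain ⟨h2', h3'⟩ := h1' P hP hNP2 hlP
    refine ⟨fun τ hτ x hx => ⟨?_, ?_⟩, fun Φ hΦ => ?_⟩
    · change p.hom (Z.ρ τ x - x) ∈ W (m - 1)
      rw [map_sub, Rep.hom_comm_apply]
      exact h2 τ hτ _ hx.1
    · change q.hom (Z.ρ τ x - x) ∈ W' (m - 1)
      rw [map_sub, Rep.hom_comm_apply]
      exact h2' τ hτ _ hx.2
    · obtain ⟨Q, hQ, h4, h5⟩ := h3 Φ hΦ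
      obtain ⟨Q', hQ', h4', h5'⟩ := h3' Φ hΦ
      refine ⟨Q * Q', mul_ne_zero hQ hQ', fun z hz => ?_, fun x hx => ⟨?_, ?_⟩⟩
      · rw [map_mul, mul_eq_zero] at hz
        exact hz.elim (h4 z) (h4' z)
      · change p.hom (aeval (Z.ρ Φ) ((Q * Q').map (algebraMap ℚ ℚ_[l])) x) ∈ W (m - 1)
        rw [hom_aeval, mul_comm, Polynomial.map_mul, map_mul, Module.End.mul_apply]
        exact aeval_mem (hW (m - 1) Φ) _ (h5 _ hx.1)
      · change q.hom (aeval (Z.ρ Φ) ((Q * Q').map (algebraMap ℚ ℚ_[l])) x) ∈ W' (m - 1)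
        rw [hom_aeval, Polynomial.map_mul, map_mul, Module.End.mul_apply]
        exact aeval_mem (hW' (m - 1) Φ) _ (h5' _ hx.2)

theorem weight_surj {X Y : Reps F l} {f : X ⟶ Y} (hf : Function.Surjective f.hom)
    {W : ℤ → Submodule ℚ_[l] X} (hX : IsWeight X.ρ W) :
    IsWeight Y.ρ fun m => (W m).map f.hom.toLinearMap := by
  obtain ⟨hW, hm, ⟨a, ha⟩, ⟨b, hb⟩, hp⟩ := hX
  refine ⟨?_, ?_, ⟨a, ?_⟩, ⟨b, ?_⟩, ?_⟩
  · rintro m g _ ⟨x, hx, rfl⟩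
    refine ⟨X.ρ g x, hW m g x hx, ?_⟩
    exact Rep.hom_comm_apply f g x
  · intro m n hmn
    exact Submodule.map_mono (hm hmn)
  · simp [ha]
  · simp only [hb, Submodule.map_top]
    exact LinearMap.range_eq_top.2 hf
  · intro m
    obtain ⟨N, hN, h1⟩ := hp m
    refine ⟨N, hN, fun P hP hNP hlP => ?_⟩
    obtain ⟨h2, h3⟩ := h1 P hP hNP hlP
    refine ⟨?_, fun Φ hΦ => ?_⟩
    · rintro τ hτ _ ⟨x, hx, rfl⟩
      refine ⟨X.ρ τ x - x, h2 τ hτ x hx, ?_⟩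
      change f.hom (X.ρ τ x - x) = Y.ρ τ (f.hom x) - f.hom x
      rw [map_sub, Rep.hom_comm_apply]
    · obtain ⟨Q, hQ, h4, h5⟩ := h3 Φ hΦ
      refine ⟨Q, hQ, h4, ?_⟩
      rintro _ ⟨x, hx, rfl⟩
      refine ⟨_, h5 x hx, ?_⟩
      exact hom_aeval f Φ _ x

section lattice

theorem inv_map {X Y : Reps F l} (f : X ⟶ Y) {U : Submodule ℚ_[l] X}
    (hU : ∀ g, ∀ x ∈ U, X.ρ g x ∈ U) : ∀ g, ∀ y ∈ U.map f.hom.toLinearMap,
      Y.ρ g y ∈ U.map f.hom.toLinearMap := by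
  rintro g _ ⟨x, hx, rfl⟩
  exact ⟨X.ρ g x, hU g x hx, Rep.hom_comm_apply f g x⟩

theorem inv_comap {X Y : Reps F l} (f : X ⟶ Y) {U : Submodule ℚ_[l] Y}
    (hU : ∀ g, ∀ y ∈ U, Y.ρ g y ∈ U) : ∀ g, ∀ x ∈ U.comap f.hom.toLinearMap,
      X.ρ g x ∈ U.comap f.hom.toLinearMap := by
  intro g x hx
  change f.hom (X.ρ g x) ∈ U
  rw [Rep.hom_comm_apply]
  exact hU g _ hx

theorem inv_sup {X : Reps F l} {U U' : Submodule ℚ_[l] X}
    (hU : ∀ g, ∀ x ∈ U, X.ρ g x ∈ U) (hU' : ∀ g, ∀ x ∈ U', X.ρ g x ∈ U') :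
    ∀ g, ∀ x ∈ U ⊔ U', X.ρ g x ∈ U ⊔ U' := by
  intro g x hx
  obtain ⟨y, hy, z, hz, rfl⟩ := Submodule.mem_sup.1 hx
  rw [map_add]
  exact Submodule.add_mem_sup (hU g y hy) (hU' g z hz)

theorem inv_inf {X : Reps F l} {U U' : Submodule ℚ_[l] X}
    (hU : ∀ g, ∀ x ∈ U, X.ρ g x ∈ U) (hU' : ∀ g, ∀ x ∈ U', X.ρ g x ∈ U') :
    ∀ g, ∀ x ∈ U ⊓ U', X.ρ g x ∈ U ⊓ U' := fun g x hx => ⟨hU g x hx.1, hU' g x hx.2⟩

end lattice

theorem semi_jointInj {Z X Y : Reps F l} {p : Z ⟶ X} {q : Z ⟶ Y}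
    {A' A : Submodule ℚ_[l] X} {B' B : Submodule ℚ_[l] Y}
    (hA' : ∀ g, ∀ x ∈ A', X.ρ g x ∈ A') (hB' : ∀ g, ∀ x ∈ B', Y.ρ g x ∈ B')
    (hAA : A' ≤ A) (hBB : B' ≤ B) (hX : SemisimpleGr X.ρ A' A) (hY : SemisimpleGr Y.ρ B' B)
    (hZA : ∀ g, ∀ x ∈ A, X.ρ g x ∈ A) (hZB : ∀ g, ∀ x ∈ B, Y.ρ g x ∈ B) :
    SemisimpleGr Z.ρ (A'.comap p.hom.toLinearMap ⊓ B'.comap q.hom.toLinearMap)
      (A.comap p.hom.toLinearMap ⊓ B.comap q.hom.toLinearMap) := by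
  intro U hU hU1 hU2
  -- the complement in `X`
  obtain ⟨D, hDi, hD1, hD2, hD3, hD4⟩ := hX (U.map p.hom.toLinearMap ⊔ A')
    (inv_sup (inv_map p hU) hA') le_sup_right (sup_le (by
      rintro _ ⟨u, hu, rfl⟩
      exact (hU2 hu).1) hAA)
  -- the complement in `Y`
  obtain ⟨C, hCi, hC1, hC2, hC3, hC4⟩ := hY ((U ⊓ A'.comap p.hom.toLinearMap).map q.hom.toLinearMap ⊔ B')
    (inv_sup (inv_map q (inv_inf hU (inv_comap p hA'))) hB') le_sup_right (sup_le (by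
      rintro _ ⟨u, hu, rfl⟩
      exact (hU2 hu.1).2) hBB)
  refine ⟨D.comap p.hom.toLinearMap ⊓ C.comap q.hom.toLinearMap,
    inv_inf (inv_comap p hDi) (inv_comap q hCi), ?_, ?_, ?_, ?_⟩
  · exact fun z hz => ⟨hD1 hz.1, hC1 hz.2⟩
  · exact fun z hz => ⟨hD2 hz.1, hC2 hz.2⟩
  · rintro z ⟨hz, hzD, hzC⟩
    have h1 : p.hom z ∈ A' := hD3 ⟨Submodule.mem_sup_left ⟨z, hz, rfl⟩, hzD⟩
    have h2 : q.hom z ∈ B' := hC3 ⟨Submodule.mem_sup_left ⟨z, ⟨hz, h1⟩, rfl⟩, hzC⟩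
    exact ⟨h1, h2⟩
  · rintro z ⟨hzA, hzB⟩
    obtain ⟨y, hy, d, hd, hyd⟩ := Submodule.mem_sup.1 (hD4 hzA)
    obtain ⟨_, ⟨u, hu, rfl⟩, a', ha', rfl⟩ := Submodule.mem_sup.1 hy
    have h1 : p.hom (z - u) ∈ D := by
      rw [map_sub]
      have h2 : p.hom z - p.hom u = a' + d := by
        rw [sub_eq_iff_eq_add]
        have h3 : p.hom u + a' + d = p.hom z := hyd
        rw [← h3]
        abel
      rw [h2]
      exact D.add_mem (hD1 ha') hd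
    have h4 : q.hom (z - u) ∈ B := by
      rw [map_sub]
      exact B.sub_mem hzB (hU2 hu).2
    obtain ⟨y', hy', c, hc, hyc⟩ := Submodule.mem_sup.1 (hC4 h4)
    obtain ⟨_, ⟨u', hu', rfl⟩, b', hb', rfl⟩ := Submodule.mem_sup.1 hy'
    have h5 : q.hom (z - u - u') ∈ C := by
      rw [map_sub]
      have h2 : q.hom (z - u) - q.hom u' = b' + c := by
        rw [sub_eq_iff_eq_add]
        have h3 : q.hom u' + b' + c = q.hom (z - u) := hyc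
        rw [← h3]
        abel
      rw [h2]
      exact C.add_mem (hC1 hb') hc
    have h6 : p.hom (z - u - u') ∈ D := by
      rw [map_sub]
      exact D.sub_mem h1 (hD1 hu'.2)
    have h7 : z = (u + u') + (z - u - u') := by abel
    rw [h7]
    exact Submodule.add_mem_sup (U.add_mem hu hu'.1) ⟨h6, h5⟩

theorem semi_surj {X Y : Reps F l} (f : X ⟶ Y) {A' A : Submodule ℚ_[l] X}
    (hA : ∀ g, ∀ x ∈ A, X.ρ g x ∈ A) (hAA : A' ≤ A) (hX : SemisimpleGr X.ρ A' A) :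
    SemisimpleGr Y.ρ (A'.map f.hom.toLinearMap) (A.map f.hom.toLinearMap) := by
  intro U hU hU1 hU2
  obtain ⟨D, hDi, hD1, hD2, hD3, hD4⟩ := hX (U.comap f.hom.toLinearMap ⊓ A)
    (inv_inf (inv_comap f hU) hA) (fun x hx => ⟨hU1 ⟨x, hx, rfl⟩, hAA hx⟩) inf_le_right
  refine ⟨D.map f.hom.toLinearMap, inv_map f hDi, Submodule.map_mono hD1, Submodule.map_mono hD2,
    ?_, ?_⟩
  · rintro _ ⟨hy, ⟨x, hx, rfl⟩⟩
    exact ⟨x, hD3 ⟨⟨hy, hD2 hx⟩, hx⟩, rfl⟩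
  · rintro _ ⟨x, hx, rfl⟩
    obtain ⟨u, hu, d, hd, rfl⟩ := Submodule.mem_sup.1 (hD4 hx)
    rw [map_add]
    exact Submodule.add_mem_sup hu.1 ⟨d, hd, rfl⟩

theorem semi_ExtV {V : Reps F l} (a : Cyc F l) {A' A B' B : Submodule ℚ_[l] V}
    (hA : ∀ g, ∀ x ∈ A, V.ρ g x ∈ A) (hA'i : ∀ g, ∀ x ∈ A', V.ρ g x ∈ A')
    (hB'i : ∀ g, ∀ x ∈ B', V.ρ g x ∈ B') (hBi : ∀ g, ∀ x ∈ B, V.ρ g x ∈ B)
    (hAA : A' ≤ A) (hBB : B' ≤ B) (hBA : B ≤ A')
    (h1 : SemisimpleGr V.ρ A' A) (h2 : SemisimpleGr V.ρ B' B) :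
    SemisimpleGr (ExtV V a).ρ (A'.prod B' : Submodule ℚ_[l] (V × V)) (A.prod B) := by
  intro T hT hT1 hT2
  have hTa : ∀ g (x : V × V), x ∈ (T : Submodule ℚ_[l] (V × V)) →
      (chi l g • V.ρ g x.1 + a.1 g • V.ρ g x.2, V.ρ g x.2) ∈ (T : Submodule ℚ_[l] (V × V)) :=
    fun g x hx => hT g x hx
  let T' : Submodule ℚ_[l] (V × V) := T
  -- the complement of the image
  obtain ⟨D, hDi, hD1, hD2, hD3, hD4⟩ := h2 (T'.map (LinearMap.snd ℚ_[l] V V)) (by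
      rintro g _ ⟨x, hx, rfl⟩
      exact ⟨_, hTa g x hx, rfl⟩) (fun y hy => ⟨((0 : V), y), hT1 ⟨A'.zero_mem, hy⟩, rfl⟩) (by
      rintro _ ⟨x, hx, rfl⟩
      exact (hT2 hx).2)
  -- the complement of the kernel
  obtain ⟨C, hCi, hC1, hC2, hC3, hC4⟩ := h1 (T'.comap (LinearMap.inl ℚ_[l] V V)) (by
      intro g x hx
      have h3 := hTa g (x, (0 : V)) hx
      have h4 : (chi l g • V.ρ g x + a.1 g • V.ρ g (0 : V), V.ρ g (0 : V)) =
          chi l g • ((V.ρ g x, (0 : V)) : V × V) := by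
        rw [map_zero, smul_zero, add_zero]
        exact Prod.ext rfl (smul_zero _).symm
      change (chi l g • V.ρ g x + a.1 g • V.ρ g (0 : V), V.ρ g (0 : V)) ∈ T' at h3
      rw [h4] at h3
      have h5 := T'.smul_mem (chi l g)⁻¹ h3
      rw [smul_smul, inv_mul_cancel₀ (chi_ne_zero g), one_smul] at h5
      exact h5) (fun x hx => hT1 ⟨hx, B'.zero_mem⟩) (fun x hx => (hT2 hx).1)
  refine ⟨(C.prod D : Submodule ℚ_[l] (V × V)), ?_, ?_, ?_, ?_, ?_⟩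
  · intro g x hx
    let x' : V × V := x
    have hx' : x'.1 ∈ C ∧ x'.2 ∈ D := hx
    exact ⟨C.add_mem (C.smul_mem _ (hCi g _ hx'.1))
      (C.smul_mem _ (hC1 (hBA (hBi g _ (hD2 hx'.2))))), hDi g _ hx'.2⟩
  · exact fun x hx => ⟨hC1 hx.1, hD1 hx.2⟩
  · exact fun x hx => ⟨hC2 hx.1, hD2 hx.2⟩
  · rintro x ⟨hxT, hx⟩
    let x' : V × V := x
    have hx' : x'.1 ∈ C ∧ x'.2 ∈ D := hx
    have h3 : x'.2 ∈ B' := hD3 ⟨⟨x', hxT, rfl⟩, hx'.2⟩
    have h4 : ((x'.1, (0 : V)) : V × V) ∈ T' := by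
      have h5 : ((x'.1, (0 : V)) : V × V) = x' - ((0 : V), x'.2) :=
        Prod.ext (sub_zero _).symm (sub_self _).symm
      rw [h5]
      exact T'.sub_mem hxT (hT1 ⟨A'.zero_mem, h3⟩)
    exact ⟨hC3 ⟨h4, hx'.1⟩, h3⟩
  · intro x hx
    let x' : V × V := x
    have hx' : x'.1 ∈ A ∧ x'.2 ∈ B := hx
    obtain ⟨_, ⟨t, ht, rfl⟩, d, hd, htd⟩ := Submodule.mem_sup.1 (hD4 hx'.2)
    have h3 : x'.1 - t.1 ∈ A := A.sub_mem hx'.1 (hT2 ht).1
    obtain ⟨s, hs, c, hc, hsc⟩ := Submodule.mem_sup.1 (hC4 h3)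
    have h4 : x' = (t + ((s, (0 : V)) : V × V)) + ((c, d) : V × V) := by
      refine Prod.ext ?_ ?_
      · change x'.1 = t.1 + s + c
        rw [add_assoc, hsc]
        abel
      · change x'.2 = t.2 + 0 + d
        rw [add_zero]
        exact htd.symm
    change x' ∈ T' ⊔ _
    rw [h4]
    exact Submodule.add_mem_sup (T'.add_mem ht hs) ⟨hc, hd⟩

end Pool.Agent.H68.CD
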