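import Mathlib
import Pool.Agent.H68.CD.SS

/-!
# The class of the representations with semisimple weight graded pieces is closed
-/

set_option autoImplicit false
set_option linter.unusedSectionVars false
set_option linter.unusedVariables false
set_option maxHeartbeats 1000000

open NumberField CategoryTheory Polynomial Limits Pool.Agent.N491.CD

namespace Pool.Agent.H68.CD

variable {F : Type} [Field F] [NumberField F] {l : ℕ} [hl : Fact l.Prime]

theorem HasSemisimpleWeights.of_jointInj {Z X Y : Reps F l} {p : Z ⟶ X} {q : Z ⟶ Y}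
    (h : JointInj p q) (hX : HasSemisimpleWeights X.ρ) (hY : HasSemisimpleWeights Y.ρ) :
    HasSemisimpleWeights Z.ρ := by
  obtain ⟨W, hW, hs⟩ := hX
  obtain ⟨W', hW', hs'⟩ := hY
  refine ⟨_, weight_jointInj h hW hW', fun m => ?_⟩
  exact semi_jointInj (hW.1 _) (hW'.1 _) (hW.2.1 (by omega)) (hW'.2.1 (by omega)) (hs m) (hs' m)
    (hW.1 _) (hW'.1 _)

theorem HasSemisimpleWeights.of_surj {X Y : Reps F l} {f : X ⟶ Y} (hf : Function.Surjective f.hom)
    (hX : HasSemisimpleWeights X.ρ) : HasSemisimpleWeights Y.ρ := by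
  obtain ⟨W, hW, hs⟩ := hX
  refine ⟨_, weight_surj hf hW, fun m => ?_⟩
  exact semi_surj f (hW.1 _) (hW.2.1 (by omega)) (hs m)

theorem HasSemisimpleWeights.extV {V : Reps F l} (hV : HasSemisimpleWeights V.ρ) (a : Cyc F l) :
    HasSemisimpleWeights (ExtV V a).ρ := by
  obtain ⟨W, hW, hs⟩ := hV
  refine ⟨_, weight_ExtV hW a, fun m => ?_⟩
  have h1 : m - 1 + 2 = m + 2 - 1 := by ring
  have h2 := hs (m + 2)
  rw [← h1] at h2
  exact semi_ExtV a (hW.1 _) (hW.1 _) (hW.1 _) (hW.1 _) (hW.2.1 (by omega)) (hW.2.1 (by omega))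
    (hW.2.1 (by omega)) h2 (hs m)

theorem hasSemisimpleWeights_subsingleton {Z : Reps F l} (hs : Subsingleton Z.V) :
    HasSemisimpleWeights Z.ρ := by
  obtain ⟨W, hW⟩ := (isMixed_subsingleton hs).2
  refine ⟨W, hW, fun m U hU _ _ => ⟨U, hU, ?_, ?_, ?_, ?_⟩⟩ <;>
  · intro x _
    rw [Subsingleton.elim x 0]
    exact Submodule.zero_mem _

variable (𝒜 : ObjectProperty (Reps F l)) [IsAdm 𝒜]

instance : (Semi 𝒜).IsClosedUnderSubobjects where
  prop_of_mono {X Y} f _ hY := by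
    have h1 : Function.Injective f.hom := (Rep.mono_iff_injective f).1 inferInstance
    have h2 : JointInj f f := fun z hz _ => h1 (by rw [hz, map_zero])
    exact ⟨hY.1.of_jointInj h2 hY.1, 𝒜.prop_of_mono f hY.2⟩

instance : (Semi 𝒜).IsClosedUnderQuotients where
  prop_of_epi {X Y} f _ hX := by
    have h1 : Function.Surjective f.hom := (Rep.epi_iff_surjective f).1 inferInstance
    exact ⟨hX.1.of_surj h1, 𝒜.prop_of_epi f hX.2⟩

instance : (Semi 𝒜).ContainsZero where
  exists_zero := by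
    obtain ⟨Z, hZ, hA⟩ := 𝒜.exists_prop_of_containsZero
    have hs : Subsingleton Z.V := (Rep.isZero_iff _ _ Z).1 hZ
    exact ⟨Z, hZ, hasSemisimpleWeights_subsingleton hs, hA⟩

instance : (Semi 𝒜).IsClosedUnderBinaryProducts where
  limitsOfShape_le := by
    rintro X ⟨p⟩
    have h1 : JointInj (p.π.app ⟨WalkingPair.left⟩) (p.π.app ⟨WalkingPair.right⟩) := by
      refine jointInj_of _ _ fun K a ha hb => p.isLimit.hom_ext fun j => ?_
      rcases j with ⟨_ | _⟩
      · exact ha.trans Limits.zero_comp.symm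
      · exact hb.trans Limits.zero_comp.symm
    have hl := p.prop_diag_obj ⟨WalkingPair.left⟩
    have hr := p.prop_diag_obj ⟨WalkingPair.right⟩
    refine ⟨HasSemisimpleWeights.of_jointInj h1 hl.1 hr.1, ?_⟩
    refine 𝒜.prop_of_isLimit p.isLimit fun j => (p.prop_diag_obj j).2

instance : (Semi 𝒜).IsClosedUnderFiniteProducts := .mk'

instance : IsAdm (Semi 𝒜) where

theorem kummerClosed_semi (𝒜 : ObjectProperty (Reps F l)) [IsKummerClosed 𝒜] :
    IsKummerClosed (Semi 𝒜) where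
  kummer V hV a := ⟨hV.1.extV a, IsKummerClosed.kummer V hV.2 a⟩

/-! ### the extensions of `ℚ_l(n)` -/

theorem ladic_Tate (n : ℤ) : IsLadic (Tate F l n).ρ where
  finite := inferInstanceAs (FiniteDimensional ℚ_[l] ℚ_[l])
  continuous v f := by
    let f' : ℚ_[l] →ₗ[ℚ_[l]] ℚ_[l] := f
    let v' : ℚ_[l] := v
    have h : (fun g : AbsGal F => f ((Tate F l n).ρ g v)) = fun g => chi l g ^ n * f' v' := by
      funext g
      change f' (chi l g ^ n * v') = _
      rw [← smul_eq_mul, map_smul, smul_eq_mul]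
    rw [h]
    exact (continuous_chi_zpow n).mul continuous_const

/-- The extensions of `ℚ_l(n)` by `ℚ_l(n + 1)` given by Kummer cocycles are direct sums of `ℚ_l(n + 1)`
and `ℚ_l(n)` at the places above `l`. -/
theorem locallyTate_of (n : ℤ) (E : Reps F l) (a : Cyc F l)
    (e : E ≃ₗ[ℚ_[l]] (ℚ_[l] × ℚ_[l]))
    (he : ∀ g x, e (E.ρ g x) = (chi l g * (chi l g ^ n * (e x).1) + a.1 g * (chi l g ^ n * (e x).2),
      chi l g ^ n * (e x).2)) : IsLocallyTate E.ρ := by
  intro ι
  obtain ⟨c, hc⟩ := a.2.2 ι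
  let shear : (ℚ_[l] × ℚ_[l]) ≃ₗ[ℚ_[l]] (ℚ_[l] × ℚ_[l]) :=
    { toFun := fun x => (x.1 - c * x.2, x.2)
      invFun := fun x => (x.1 + c * x.2, x.2)
      map_add' := fun x y => Prod.ext (by simp; ring) rfl
      map_smul' := fun r x => Prod.ext (by simp; ring) rfl
      left_inv := fun x => Prod.ext (by simp) rfl
      right_inv := fun x => Prod.ext (by simp) rfl }
  let b0 : Module.Basis (Fin 2) ℚ_[l] (ℚ_[l] × ℚ_[l]) :=
    (Pi.basisFun ℚ_[l] (Fin 2)).map ((LinearEquiv.finTwoArrow ℚ_[l] ℚ_[l]).trans shear)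
  have hb0 : b0 0 = ((1 : ℚ_[l]), (0 : ℚ_[l])) := by
    simp [b0, shear]
  have hb1 : b0 1 = (-c, (1 : ℚ_[l])) := by
    simp [b0, shear]
  refine ⟨2, b0.map e.symm, ![n + 1, n], fun σ hσ i => ?_⟩
  have hcσ := hc σ hσ
  have h0 : chi l σ ^ (n + 1) = chi l σ ^ n * chi l σ := zpow_split _ (chi_ne_zero σ) n
  apply e.injective
  rw [he, map_smul]
  fin_cases i
  · change (chi l σ * (chi l σ ^ n * (e (e.symm (b0 0))).1) +
      a.1 σ * (chi l σ ^ n * (e (e.symm (b0 0))).2), chi l σ ^ n * (e (e.symm (b0 0))).2) =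
      chi l σ ^ (n + 1) • e (e.symm (b0 0))
    rw [LinearEquiv.apply_symm_apply, hb0, h0]
    refine Prod.ext ?_ ?_
    · change chi l σ * (chi l σ ^ n * 1) + a.1 σ * (chi l σ ^ n * 0) = chi l σ ^ n * chi l σ * 1
      ring
    · change chi l σ ^ n * 0 = chi l σ ^ n * chi l σ * 0
      ring
  · change (chi l σ * (chi l σ ^ n * (e (e.symm (b0 1))).1) +
      a.1 σ * (chi l σ ^ n * (e (e.symm (b0 1))).2), chi l σ ^ n * (e (e.symm (b0 1))).2) =
      chi l σ ^ n • e (e.symm (b0 1))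
    rw [LinearEquiv.apply_symm_apply, hb1]
    refine Prod.ext ?_ ?_
    · change chi l σ * (chi l σ ^ n * -c) + a.1 σ * (chi l σ ^ n * 1) = chi l σ ^ n * -c
      rw [hcσ]
      ring
    · change chi l σ ^ n * 1 = chi l σ ^ n * 1
      rfl

end Pool.Agent.H68.CD
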