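import Mathlib
import Pool.Agent.H68.CD.MainV
import Pool.Agent.H68.CD.SS2

/-!
# The statement: the group `Ext ^ 2 (X, X(2))` is large
-/

set_option autoImplicit false

universe w

open CategoryTheory Abelian NumberField Cardinal Pool.Agent.N491.CD

namespace Pool.Agent.H68.CD

variable {F : Type} [Field F] [NumberField F] {l : ℕ} [hl : Fact l.Prime]
  {𝒜 : ObjectProperty (Reps F l)} [IsAdm 𝒜] [HasExt.{w} (MCat 𝒜)]

/-- the dimension of the vector space `Ext ^ 2 (X, Y)` over `ℚ_l` -/
noncomputable def dimExtTwo (X Y : MCat 𝒜) : Cardinal.{w} := Module.rank ℚ_[l] (Ext.{w} X Y 2)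

variable (𝒜) in
/-- For every nonzero object `X` of the category of the mixed representations in `𝒜` the twist `X(2)` is
an object, and for every object `Y` with the underlying representation `X(2)` the space `Ext ^ 2 (X, Y)`
has dimension at least the cardinality of the continuum. Moreover for every object `Z` with the underlying
representation `X(-2)` the space `Ext ^ 2 (Z, X)` has dimension at least the cardinality of the
continuum. -/
def ExtTwoIsLarge : Prop :=
  ∀ X : MCat 𝒜, Nontrivial X.obj →
    (∃ Y : MCat 𝒜, Y.obj = twist X.obj 2) ∧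
    (∀ Y : MCat 𝒜, Y.obj = twist X.obj 2 → 𝔠 ≤ dimExtTwo.{w} X Y) ∧
    ∀ Z : MCat 𝒜, Z.obj = twist X.obj (-2) → 𝔠 ≤ dimExtTwo.{w} Z X

end Pool.Agent.H68.CD
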