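import Mathlib
import Pool.Agent.H68.CD.Stmt

/-!
# The proof that `Ext ^ 2 (X, X(2))` is large
-/

set_option autoImplicit false

universe w

open CategoryTheory Abelian NumberField Cardinal Pool.Agent.N491.CD

namespace Pool.Agent.H68.CD

theorem extTwoIsLarge {F : Type} [Field F] [NumberField F] {l : ℕ} [Fact l.Prime]
    (𝒜 : ObjectProperty (Reps F l)) [IsKummerClosed 𝒜] [HasExt.{w} (MCat 𝒜)] :
    ExtTwoIsLarge.{w} 𝒜 := by
  intro V hV
  have hgood : ∀ W : MCat 𝒜, IsGood 𝒜 W.obj := fun W a => IsKummerClosed.kummer _ W.property.2.2 a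
  have hgood1 : ∀ W : MCat 𝒜, IsGood 𝒜 (twist W.obj 1) := fun W a =>
    IsKummerClosed.kummer _ (prop_twist 𝒜 W.property (hgood W)).2.2 a
  have key : ∀ (W Y : MCat 𝒜), Nontrivial W.obj → Y.obj = twist W.obj 2 →
      𝔠 ≤ dimExtTwo.{w} W Y := by
    intro W Y hW hY
    obtain ⟨M, b, -, h⟩ := rank_V.{w} 𝒜 W (hgood W) (hgood1 W) Y hY
    exact h.trans (Submodule.rank_le _)
  refine ⟨⟨tw2 𝒜 V (hgood V) (hgood1 V), tw2_obj 𝒜 V _ _⟩, fun Y hY => key V Y hV hY, fun X hX => key X V ?_ ?_⟩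
  · rw [hX]
    exact hV
  · rw [hX, twist_twist, show (-2 : ℤ) + 2 = 0 from rfl, twist_zero]

end Pool.Agent.H68.CD
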